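import Pool.Agent.W281.Net.Cover

set_option autoImplicit false
open Finset Real

namespace Pool.Agent.W281.Net

variable {n : ℕ} {μ : Finset ℕ → ℝ}

theorem E_pr_sum (h0 : ∀ N, 0 ≤ μ N) (n : ℕ) :
    ∑ j ∈ range n, E n μ (pr n μ j) = E n μ (fun N => (N.card : ℝ)) := by
  have h : ∀ j ∈ range n, E n μ (pr n μ j) = E n μ (xi j) := by
    intro j _
    have h2 := star' (n := n) h0 j (Meas.const (i := j) 1)
    simp only [mul_one] at h2
    exact h2.symm
  rw [sum_congr rfl h, ← E_sum]
  apply E_congr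
  intro N hN _
  unfold xi
  rw [← sum_filter, sum_const, nsmul_eq_mul, mul_one, filter_mem_eq_inter, inter_eq_right.2 hN]

theorem young {y d D : ℝ} (hD : 0 < D) (hd : d ≤ D) : y ≤ 2 * D + (y - d) ^ 2 / (4 * D) := by
  have h : (y - d) ≤ D + (y - d) ^ 2 / (4 * D) := by
    rw [← sub_nonneg]
    have : D + (y - d) ^ 2 / (4 * D) - (y - d) = (y - d - 2 * D) ^ 2 / (4 * D) := by
      field_simp; ring
    rw [this]; positivity
  linarith

theorem combine {ι : Type*} [DecidableEq ι] (L : Finset ι) (f : ι → Finset ℕ) {b D : ℝ}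
    (h0 : ∀ N, 0 ≤ μ N) (h1 : E n μ (fun _ => 1) = 1) (hb : 0 < b) (hD : 0 < D)
    (hf : ∀ a ∈ L, f a ⊆ range n)
    (hpair : ∀ i j, i < j → ∀ a ∈ L, ∀ a' ∈ L, i ∈ f a → i ∈ f a' → j ∈ f a → j ∈ f a' → a = a')
    (hdeg : ∀ j, ((L.filter (fun a => j ∈ f a)).card : ℝ) ≤ D)
    (hit : ∀ N ⊆ range n, μ N ≠ 0 → ∀ a ∈ L, (N ∩ f a).Nonempty) :
    (L.card : ℝ) ≤ 2 * D * ∑ j ∈ range n, E n μ (fun N => pr n μ j N * sp n μ j N) +
      2 * D / b * E n μ (fun N => (N.card : ℝ)) +
      n * (1 + 1 / b) * exp (2 * b + 1) * (b + 1 / 2) / 2 := by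
  set M : ℝ := exp (2 * b + 1) with hMdef
  have hM : 0 < M := exp_pos _
  set W : ℕ → Finset ℕ → ℝ := fun j N => pr n μ j N * (sp n μ j N + (1 - sp n μ j N) / b) with hW
  have hW0 : ∀ j N, 0 ≤ W j N := by
    intro j N
    refine mul_nonneg (pr_nonneg h0 j N) (add_nonneg (sp_nonneg j N) (div_nonneg ?_ hb.le))
    linarith [sp_le_one (n := n) (μ := μ) j N]
  have hW1 : ∀ j N, W j N ≤ 1 + 1 / b := by
    intro j N
    have a1 := pr_le_one (n := n) h0 j N
    have a0 := pr_nonneg (n := n) h0 j N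
    have a2 := sp_le_one (n := n) (μ := μ) j N
    have a3 := sp_nonneg (n := n) (μ := μ) j N
    have a4 : (1 - sp n μ j N) / b ≤ 1 / b := div_le_div_of_nonneg_right (by linarith) hb.le
    have a5 : 0 ≤ (1 - sp n μ j N) / b := div_nonneg (by linarith) hb.le
    calc W j N ≤ 1 * (1 + 1 / b) := mul_le_mul a1 (by linarith) (by linarith) zero_le_one
      _ = _ := one_mul _
  set S : ℕ → Finset ι := fun j => L.filter (fun a => j ∈ f a) with hS
  -- sum over the lines
  have s1 : (L.card : ℝ) ≤ ∑ a ∈ L, ∑ j ∈ f a, E n μ (fun N => Z n μ b (f a) j N * W j N) := by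
    have : (L.card : ℝ) = ∑ a ∈ L, (1 : ℝ) := by simp
    rw [this]
    apply sum_le_sum
    intro a ha
    exact line_bound h0 h1 hb (hf a ha) (fun N hN hm => hit N hN hm a ha)
  have s2 : ∑ a ∈ L, ∑ j ∈ f a, E n μ (fun N => Z n μ b (f a) j N * W j N) =
      ∑ j ∈ range n, ∑ a ∈ S j, E n μ (fun N => Z n μ b (f a) j N * W j N) := by
    apply sum_comm'
    intro a j
    simp only [hS, mem_filter]
    constructor
    · rintro ⟨ha, hj⟩; exact ⟨⟨ha, hj⟩, hf a ha hj⟩
    · rintro ⟨⟨ha, hj⟩, _⟩; exact ⟨ha, hj⟩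
  rw [s2] at s1
  refine s1.trans ?_
  -- bound for each j
  have s3 : ∀ j ∈ range n, ∑ a ∈ S j, E n μ (fun N => Z n μ b (f a) j N * W j N) ≤
      2 * D * E n μ (fun N => pr n μ j N * sp n μ j N) + 2 * D / b * E n μ (pr n μ j) +
      (1 + 1 / b) * M * (b + 1 / 2) / 2 := by
    intro j _
    have hdj : ((S j).card : ℝ) ≤ D := hdeg j
    have b1 : ∑ a ∈ S j, E n μ (fun N => Z n μ b (f a) j N * W j N) ≤
        E n μ (fun N => 2 * D * W j N +
          (1 + 1 / b) / (4 * D) * (∑ a ∈ S j, Z n μ b (f a) j N - (S j).card) ^ 2) := by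
      rw [← E_sum]
      apply E_mono' h0
      intro N
      rw [← sum_mul]
      have c1 := young (y := ∑ a ∈ S j, Z n μ b (f a) j N) hD hdj
      set y := ∑ a ∈ S j, Z n μ b (f a) j N
      have c2 : 0 ≤ (y - (S j).card) ^ 2 / (4 * D) := by positivity
      calc y * W j N ≤ (2 * D + (y - (S j).card) ^ 2 / (4 * D)) * W j N :=
            mul_le_mul_of_nonneg_right c1 (hW0 j N)
        _ = 2 * D * W j N + (y - (S j).card) ^ 2 / (4 * D) * W j N := by ring
        _ ≤ 2 * D * W j N + (y - (S j).card) ^ 2 / (4 * D) * (1 + 1 / b) := by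
            gcongr
            exact hW1 j N
        _ = _ := by ring
    have b2 : E n μ (fun N => (∑ a ∈ S j, Z n μ b (f a) j N - (S j).card) ^ 2) ≤
        2 * M * (D * (b + 1 / 2)) := by
      refine (second_moment (S j) f j h0 h1 hb.le ?_ (le_refl j)).trans ?_
      · intro i hij a ha a' ha' hi hi'
        simp only [hS, mem_filter] at ha ha'
        exact hpair i j hij a ha.1 a' ha'.1 hi hi' ha.2 ha'.2
      · apply mul_le_mul_of_nonneg_left _ (by positivity)
        have c1 : ∀ a ∈ S j, E n μ (fun N => Z n μ b (f a) j N * H n μ b (f a) j N) ≤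
            b + 1 / 2 := by
          intro a _
          calc E n μ (fun N => Z n μ b (f a) j N * H n μ b (f a) j N)
              ≤ E n μ (fun N => (b + 1 / 2) * Z n μ b (f a) j N) := by
                apply E_mono' h0; intro N
                rw [mul_comm]
                exact mul_le_mul_of_nonneg_right (H_le hb.le j N) (Z_nonneg j N)
            _ = (b + 1 / 2) * E n μ (fun N => Z n μ b (f a) j N) := E_const_mul _ _
            _ = b + 1 / 2 := by
                have : E n μ (fun N => Z n μ b (f a) j N) = 1 := E_Z_one h0 h1 j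
                rw [this, mul_one]
        calc ∑ a ∈ S j, E n μ (fun N => Z n μ b (f a) j N * H n μ b (f a) j N)
            ≤ ∑ a ∈ S j, (b + 1 / 2) := sum_le_sum c1
          _ = (S j).card * (b + 1 / 2) := by rw [sum_const, nsmul_eq_mul]
          _ ≤ D * (b + 1 / 2) := by gcongr
    rw [E_add, E_const_mul, E_const_mul] at b1
    have b3 : E n μ (W j) ≤ E n μ (fun N => pr n μ j N * sp n μ j N) + 1 / b * E n μ (pr n μ j) := by
      rw [← E_const_mul, ← E_add]
      apply E_mono' h0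
      intro N
      simp only [hW]
      have a0 := pr_nonneg (n := n) h0 j N
      have a3 := sp_nonneg (n := n) (μ := μ) j N
      have : pr n μ j N * ((1 - sp n μ j N) / b) ≤ pr n μ j N * (1 / b) := by
        apply mul_le_mul_of_nonneg_left _ a0
        exact div_le_div_of_nonneg_right (by linarith) hb.le
      linarith
    have b4 : (1 + 1 / b) / (4 * D) * (2 * M * (D * (b + 1 / 2))) =
        (1 + 1 / b) * M * (b + 1 / 2) / 2 := by
      field_simp; ring
    have b5 : (1 + 1 / b) / (4 * D) *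
        E n μ (fun N => (∑ a ∈ S j, Z n μ b (f a) j N - (S j).card) ^ 2) ≤
        (1 + 1 / b) / (4 * D) * (2 * M * (D * (b + 1 / 2))) :=
      mul_le_mul_of_nonneg_left b2 (by positivity)
    rw [b4] at b5
    have b6 : 2 * D * E n μ (W j) ≤ 2 * D * (E n μ (fun N => pr n μ j N * sp n μ j N) +
        1 / b * E n μ (pr n μ j)) := mul_le_mul_of_nonneg_left b3 (by positivity)
    have b7 : 2 * D * (E n μ (fun N => pr n μ j N * sp n μ j N) + 1 / b * E n μ (pr n μ j)) =
        2 * D * E n μ (fun N => pr n μ j N * sp n μ j N) + 2 * D / b * E n μ (pr n μ j) := by ring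
    linarith
  refine (sum_le_sum s3).trans ?_
  rw [sum_add_distrib, sum_add_distrib, ← mul_sum, ← mul_sum, E_pr_sum h0, sum_const, card_range,
    nsmul_eq_mul]
  apply le_of_eq
  ring

end Pool.Agent.W281.Net
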