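import Pool.Agent.W281.Net.Steer

set_option autoImplicit false
open Finset Real

namespace Pool.Agent.W281.Net

variable (n : ℕ) (μ : Finset ℕ → ℝ)

open Classical in
/-- Indicator of a special step. -/
noncomputable def sp (i : ℕ) (N : Finset ℕ) : ℝ := if 1 / 2 ≤ pr n μ i N then 1 else 0

theorem meas_sp (i : ℕ) : Meas i (sp n μ i) := by
  intro N N' h
  unfold sp
  rw [meas_pr n μ i N N' h]

variable {n μ} {b : ℝ} {l : Finset ℕ}

theorem sp_nonneg (i : ℕ) (N : Finset ℕ) : 0 ≤ sp n μ i N := by
  unfold sp; split_ifs <;> norm_num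

theorem sp_le_one (i : ℕ) (N : Finset ℕ) : sp n μ i N ≤ 1 := by
  unfold sp; split_ifs <;> norm_num

theorem Act_le (i : ℕ) (N : Finset ℕ) :
    Act n μ b l i N ≤ if i ∈ l then 1 - sp n μ i N else 0 := by
  unfold Act sp
  by_cases h1 : i ∈ l
  · by_cases h2 : pr n μ i N < 1 / 2
    · simp only [h1, h2, not_le.2 h2, if_true, if_false]
      split_ifs <;> norm_num
    · rw [if_neg (by tauto), if_pos h1, if_pos (not_lt.1 h2)]; norm_num
  · simp [h1]

theorem H_eq_sum (k : ℕ) (N : Finset ℕ) :
    H n μ b l k N = ∑ j ∈ range k, pr n μ j N * Act n μ b l j N := by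
  induction k with
  | zero => simp [H]
  | succ k ih => rw [H_succ, sum_range_succ, ih]

/-- Once an active step hits, the martingale stays at zero. -/
theorem Z_zero_mono {i k : ℕ} (h : i ≤ k) {N : Finset ℕ} (hz : Z n μ b l i N = 0) :
    Z n μ b l k N = 0 := by
  induction k, h using Nat.le_induction with
  | base => exact hz
  | succ k _ ih => simp only [Z]; rw [ih]; ring

theorem Z_pointwise (h0 : ∀ N, 0 ≤ μ N) (hb : 0 < b) {N : Finset ℕ} (hN : N ⊆ range n)
    (hl : (N ∩ l).Nonempty) :
    Z n μ b l n N ≤ Z n μ b l n N * (H n μ b l n N / b) +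
      ∑ j ∈ l.filter (fun j => j < n), Z n μ b l n N * (xi j N * sp n μ j N) := by
  have hZ := Z_nonneg (n := n) (μ := μ) (b := b) (l := l) n N
  have hH := H_nonneg (b := b) (l := l) (n := n) h0 n N
  have hterm : ∀ j ∈ l.filter (fun j => j < n), 0 ≤ Z n μ b l n N * (xi j N * sp n μ j N) := by
    intro j _
    refine mul_nonneg hZ (mul_nonneg ?_ (sp_nonneg j N))
    unfold xi; split_ifs <;> norm_num
  have hsum := sum_nonneg hterm
  obtain ⟨j, hj⟩ := hl
  rw [mem_inter] at hj
  have hjn : j < n := mem_range.1 (hN hj.1)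
  by_cases h1 : 1 / 2 ≤ pr n μ j N
  · have h2 := single_le_sum hterm (mem_filter.2 ⟨hj.2, hjn⟩)
    have h3 : xi j N * sp n μ j N = 1 := by
      unfold xi sp; rw [if_pos hj.1, if_pos h1]; ring
    simp only [h3, mul_one] at h2
    have := mul_nonneg hZ (div_nonneg hH hb.le)
    linarith
  · by_cases h2 : H n μ b l j N < b
    · have h3 : Z n μ b l (j + 1) N = 0 := by
        rw [Z_succ_of_act ⟨hj.2, not_le.1 h1, h2⟩, if_pos hj.1]
      have h4 : Z n μ b l n N = 0 := Z_zero_mono (Nat.succ_le_of_lt hjn) h3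
      rw [h4] at hsum ⊢
      simp
    · have h3 : b ≤ H n μ b l n N := (not_lt.1 h2).trans (H_mono h0 hjn.le N)
      have h4 : 1 ≤ H n μ b l n N / b := (one_le_div hb).2 h3
      nlinarith

theorem E_nonneg (h0 : ∀ N, 0 ≤ μ N) {G : Finset ℕ → ℝ} (hG : ∀ N, 0 ≤ G N) :
    0 ≤ E n μ G := sum_nonneg fun N _ => mul_nonneg (h0 N) (hG N)

theorem E_mono' (h0 : ∀ N, 0 ≤ μ N) {F G : Finset ℕ → ℝ} (h : ∀ N, F N ≤ G N) :
    E n μ F ≤ E n μ G := E_mono h0 fun N _ _ => h N

theorem line_bound (h0 : ∀ N, 0 ≤ μ N) (h1 : E n μ (fun _ => 1) = 1) (hb : 0 < b)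
    (hl : l ⊆ range n) (hit : ∀ N ⊆ range n, μ N ≠ 0 → (N ∩ l).Nonempty) :
    1 ≤ ∑ j ∈ l, E n μ (fun N => Z n μ b l j N *
      (pr n μ j N * (sp n μ j N + (1 - sp n μ j N) / b))) := by
  have hfl : l.filter (fun j => j < n) = l := by
    apply filter_true_of_mem; intro j hj; exact mem_range.1 (hl hj)
  have e1 : E n μ (Z n μ b l n) ≤
      E n μ (fun N => Z n μ b l n N * (H n μ b l n N / b)) +
      ∑ j ∈ l, E n μ (fun N => Z n μ b l n N * (xi j N * sp n μ j N)) := by
    rw [← E_sum, ← E_add]
    apply E_mono h0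
    intro N hN hm
    have := Z_pointwise (b := b) h0 hb hN (hit N hN hm)
    rw [hfl] at this
    exact this
  rw [E_Z_one h0 h1] at e1
  have e2 : E n μ (fun N => Z n μ b l n N * (H n μ b l n N / b)) ≤
      ∑ j ∈ l, E n μ (fun N => Z n μ b l j N * (pr n μ j N * ((1 - sp n μ j N) / b))) := by
    have a1 : E n μ (fun N => Z n μ b l n N * (H n μ b l n N / b)) =
        ∑ j ∈ range n, E n μ (fun N => Z n μ b l n N * (pr n μ j N * Act n μ b l j N / b)) := by
      rw [← E_sum]
      congr 1
      funext N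
      rw [H_eq_sum, sum_div, mul_sum]
    rw [a1]
    have a2 : ∀ j ∈ range n,
        E n μ (fun N => Z n μ b l n N * (pr n μ j N * Act n μ b l j N / b)) ≤
        if j ∈ l then E n μ (fun N => Z n μ b l j N * (pr n μ j N * ((1 - sp n μ j N) / b)))
        else 0 := by
      intro j hj
      have hM : Meas j (fun N => pr n μ j N * Act n μ b l j N / b) :=
        ((meas_pr n μ j).mul (meas_Act n μ b l j)).div (Meas.const b)
      rw [E_Z_le h0 (mem_range.1 hj).le hM]
      by_cases hjl : j ∈ l
      · rw [if_pos hjl]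
        apply E_mono' h0
        intro N
        apply mul_le_mul_of_nonneg_left _ (Z_nonneg j N)
        rw [mul_div_assoc]
        apply mul_le_mul_of_nonneg_left _ (pr_nonneg h0 j N)
        apply div_le_div_of_nonneg_right _ hb.le
        have := Act_le (n := n) (μ := μ) (b := b) (l := l) j N
        rwa [if_pos hjl] at this
      · rw [if_neg hjl]
        apply le_of_eq
        have : ∀ N, Z n μ b l j N * (pr n μ j N * Act n μ b l j N / b) = 0 := by
          intro N
          have : Act n μ b l j N = 0 := by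
            unfold Act; rw [if_neg]; tauto
          rw [this]; ring
        simp only [this]
        unfold E; simp
    refine (sum_le_sum a2).trans ?_
    rw [← sum_filter, filter_mem_eq_inter, inter_eq_right.2 hl]
  have e3 : ∀ j ∈ l, E n μ (fun N => Z n μ b l n N * (xi j N * sp n μ j N)) =
      E n μ (fun N => Z n μ b l j N * (pr n μ j N * sp n μ j N)) := by
    intro j hj
    have hjn : j + 1 ≤ n := mem_range.1 (hl hj)
    have hM : Meas (j + 1) (fun N => xi j N * sp n μ j N) :=
      (meas_xi j).mul ((meas_sp n μ j).mono (Nat.le_succ j))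
    rw [E_Z_le h0 hjn hM]
    have a1 : ∀ N, Z n μ b l (j + 1) N * (xi j N * sp n μ j N) =
        xi j N * (Z n μ b l j N * sp n μ j N) := by
      intro N
      by_cases hs : 1 / 2 ≤ pr n μ j N
      · rw [Z_succ_of_not (fun h => absurd h.2.1 (not_lt.2 hs))]; ring
      · have : sp n μ j N = 0 := by unfold sp; rw [if_neg hs]
        rw [this]; ring
    simp only [a1]
    rw [star' h0 j ((meas_Z n μ b l j).mul (meas_sp n μ j))]
    congr 1
    funext N
    ring
  rw [sum_congr rfl e3] at e1
  have e4 : ∑ j ∈ l, E n μ (fun N => Z n μ b l j N *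
      (pr n μ j N * (sp n μ j N + (1 - sp n μ j N) / b))) =
      ∑ j ∈ l, E n μ (fun N => Z n μ b l j N * (pr n μ j N * ((1 - sp n μ j N) / b))) +
      ∑ j ∈ l, E n μ (fun N => Z n μ b l j N * (pr n μ j N * sp n μ j N)) := by
    rw [← sum_add_distrib]
    apply sum_congr rfl
    intro j _
    rw [← E_add]
    congr 1
    funext N
    ring
  rw [e4]
  linarith

/-- Second moment of the sum of the martingales of the lines through one element. -/
theorem second_moment {ι : Type*} (s : Finset ι) (f : ι → Finset ℕ) (j : ℕ)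
    (h0 : ∀ N, 0 ≤ μ N) (h1 : E n μ (fun _ => 1) = 1) (hb : 0 ≤ b)
    (huniq : ∀ i < j, ∀ a ∈ s, ∀ a' ∈ s, i ∈ f a → i ∈ f a' → a = a') {i : ℕ} (hij : i ≤ j) :
    E n μ (fun N => (∑ a ∈ s, Z n μ b (f a) i N - s.card) ^ 2) ≤
      2 * exp (2 * b + 1) *
        ∑ a ∈ s, E n μ (fun N => Z n μ b (f a) i N * H n μ b (f a) i N) := by
  classical
  induction i with
  | zero =>
    apply le_of_eq
    simp only [Z, H, sum_const, nsmul_eq_mul, mul_one, sub_self, mul_zero, E]
    simp
  | succ i ih =>
    have ih := ih (by omega)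
    set d : ℝ := (s.card : ℝ)
    set M : ℝ := exp (2 * b + 1)
    have hM : 0 < M := exp_pos _
    set Y : Finset ℕ → ℝ := fun N => ∑ a ∈ s, Z n μ b (f a) i N with hY
    set R : Finset ℕ → ℝ := fun N => ∑ a ∈ s, Act n μ b (f a) i N * Z n μ b (f a) i N with hR
    have mY : Meas i Y := Meas.sum s fun a _ => meas_Z n μ b (f a) i
    have mR : Meas i R := Meas.sum s fun a _ => (meas_Act n μ b (f a) i).mul (meas_Z n μ b (f a) i)
    have mp := meas_pr n μ i
    have hR0 : ∀ N, 0 ≤ R N := fun N => sum_nonneg fun a _ =>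
      mul_nonneg (Act_nonneg i N) (Z_nonneg i N)
    have hRM : ∀ N, R N ≤ M := by
      intro N
      by_cases hex : ∃ a ∈ s, i ∈ f a
      · obtain ⟨a, ha, hia⟩ := hex
        have : R N = Act n μ b (f a) i N * Z n μ b (f a) i N := by
          apply sum_eq_single_of_mem a ha
          intro a' ha' hne
          have : i ∉ f a' := fun h => hne (huniq i (by omega) a' ha' a ha h hia)
          unfold Act; rw [if_neg (by tauto)]; ring
        rw [this]
        calc Act n μ b (f a) i N * Z n μ b (f a) i N ≤ 1 * M :=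
              mul_le_mul (Act_le_one i N) (Z_le' h0 hb i N) (Z_nonneg i N) zero_le_one
          _ = M := one_mul M
      · have : R N = 0 := by
          apply sum_eq_zero
          intro a ha
          have : i ∉ f a := fun h => hex ⟨a, ha, h⟩
          unfold Act; rw [if_neg (by tauto)]; ring
        rw [this]; exact hM.le
    have hRp : ∀ N, R N ≠ 0 → pr n μ i N < 1 / 2 := by
      intro N hne
      by_contra hcon
      apply hne
      apply sum_eq_zero
      intro a _
      unfold Act; rw [if_neg (by tauto)]; ring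
    -- the recursion
    have hYs : ∀ N, ∑ a ∈ s, Z n μ b (f a) (i + 1) N =
        Y N - R N * ((xi i N - pr n μ i N) / (1 - pr n μ i N)) := by
      intro N
      rw [hY, hR, sum_mul, ← sum_sub_distrib]
      apply sum_congr rfl
      intro a _
      simp only [Z]
    have hxi : ∀ N, xi i N * xi i N = xi i N := by
      intro N; unfold xi; split_ifs <;> norm_num
    set G1 : Finset ℕ → ℝ := fun N => (Y N - d) * R N / (1 - pr n μ i N) with hG1
    set G2 : Finset ℕ → ℝ := fun N =>
      (1 - 2 * pr n μ i N) * (R N * R N) / ((1 - pr n μ i N) * (1 - pr n μ i N)) with hG2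
    set G3 : Finset ℕ → ℝ := fun N =>
      pr n μ i N * pr n μ i N * (R N * R N) / ((1 - pr n μ i N) * (1 - pr n μ i N)) with hG3
    have m1 : Meas i G1 := ((mY.sub (Meas.const d)).mul mR).div ((Meas.const 1).sub mp)
    have m2 : Meas i G2 := (((Meas.const 1).sub ((Meas.const 2).mul mp)).mul (mR.mul mR)).div
      (((Meas.const 1).sub mp).mul ((Meas.const 1).sub mp))
    have hexp : ∀ N, (∑ a ∈ s, Z n μ b (f a) (i + 1) N - d) ^ 2 =
        (Y N - d) ^ 2 - (2 * (xi i N * G1 N) - 2 * (pr n μ i N * G1 N)) +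
        (xi i N * G2 N + G3 N) := by
      intro N
      rw [hYs N, hG1, hG2, hG3]
      have e : (xi i N - pr n μ i N) ^ 2 = xi i N * (1 - 2 * pr n μ i N) +
          pr n μ i N * pr n μ i N := by
        linear_combination (hxi N)
      simp only [div_eq_mul_inv, mul_inv]
      generalize (1 - pr n μ i N)⁻¹ = t
      linear_combination (R N ^ 2 * t ^ 2) * e
    simp only [hexp]
    rw [E_add, E_sub, E_sub, E_add, E_const_mul, E_const_mul, star' h0 i m1, star' h0 i m2]
    have hthird : E n μ (fun N => pr n μ i N * G2 N) + E n μ G3 ≤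
        2 * M * ∑ a ∈ s, E n μ (fun N => Z n μ b (f a) i N *
          (pr n μ i N * Act n μ b (f a) i N)) := by
      rw [← E_add, ← E_sum, ← E_const_mul]
      apply E_mono' h0
      intro N
      have hp0 := pr_nonneg (n := n) h0 i N
      have e1 : ∑ a ∈ s, Z n μ b (f a) i N * (pr n μ i N * Act n μ b (f a) i N) =
          pr n μ i N * R N := by
        rw [hR, mul_sum]
        apply sum_congr rfl; intro a _; ring
      rw [e1]
      by_cases hz : R N = 0
      · rw [hG2, hG3]; simp only [hz]; simp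
      · have hp := hRp N hz
        have h1p : 0 < 1 - pr n μ i N := by linarith
        have e3 : pr n μ i N * G2 N + G3 N = pr n μ i N * (1 / (1 - pr n μ i N)) *
            (R N * R N) := by
          rw [hG2, hG3]; field_simp; ring
        rw [e3]
        have e4 : 1 / (1 - pr n μ i N) ≤ 2 := by
          rw [div_le_iff₀ h1p]; linarith
        have e5 : R N * R N ≤ M * R N := mul_le_mul_of_nonneg_right (hRM N) (hR0 N)
        have e6 : pr n μ i N * (1 / (1 - pr n μ i N)) ≤ pr n μ i N * 2 :=
          mul_le_mul_of_nonneg_left e4 hp0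
        calc pr n μ i N * (1 / (1 - pr n μ i N)) * (R N * R N)
            ≤ (pr n μ i N * 2) * (M * R N) := mul_le_mul e6 e5
              (mul_nonneg (hR0 N) (hR0 N)) (by positivity)
          _ = 2 * M * (pr n μ i N * R N) := by ring
    have hH : ∀ a ∈ s, E n μ (fun N => Z n μ b (f a) (i + 1) N * H n μ b (f a) (i + 1) N) =
        E n μ (fun N => Z n μ b (f a) i N * H n μ b (f a) i N) +
        E n μ (fun N => Z n μ b (f a) i N * (pr n μ i N * Act n μ b (f a) i N)) := by
      intro a _
      rw [E_Z_succ h0 i (meas_H_succ n μ b (f a) i), ← E_add]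
      congr 1
      funext N
      rw [H_succ]; ring
    rw [sum_congr rfl hH, sum_add_distrib, mul_add]
    have e0 : E n μ (fun N => (Y N - d) ^ 2) ≤ 2 * M * ∑ a ∈ s,
        E n μ (fun N => Z n μ b (f a) i N * H n μ b (f a) i N) := ih
    linarith

end Pool.Agent.W281.Net
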