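import Pool.Agent.W281.Net.Combine

set_option autoImplicit false
open Finset Real

namespace Pool.Agent.W281.Net

variable {n : ℕ} {μ : Finset ℕ → ℝ}

theorem inter_succ_iff {i : ℕ} {N N' : Finset ℕ} :
    N' ∩ range (i + 1) = N ∩ range (i + 1) ↔
      (N' ∩ range i = N ∩ range i ∧ (i ∈ N' ↔ i ∈ N)) := by
  constructor
  · intro h
    refine ⟨inter_step h, ?_⟩
    have h2 := Finset.ext_iff.1 h i
    simpa using h2
  · rintro ⟨h, h'⟩
    ext x
    simp only [mem_inter, mem_range]
    have h1 := Finset.ext_iff.1 h x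
    simp only [mem_inter, mem_range] at h1
    rcases lt_trichotomy x i with hx | hx | hx
    · constructor
      · rintro ⟨a, _⟩; exact ⟨(h1.1 ⟨a, hx⟩).1, by omega⟩
      · rintro ⟨a, _⟩; exact ⟨(h1.2 ⟨a, hx⟩).1, by omega⟩
    · subst hx; simp [h']
    · constructor
      · rintro ⟨_, a⟩; omega
      · rintro ⟨_, a⟩; omega

theorem cls_succ (i : ℕ) (N : Finset ℕ) :
    cls n μ (i + 1) N = if i ∈ N then cls1 n μ i N else cls n μ i N - cls1 n μ i N := by
  classical
  by_cases h : i ∈ N
  · rw [if_pos h]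
    unfold cls cls1
    apply sum_congr rfl
    intro N' _
    simp only [inter_succ_iff, h, iff_true]
    by_cases h1 : N' ∩ range i = N ∩ range i <;> by_cases h2 : i ∈ N' <;> simp [h1, h2]
  · rw [if_neg h]
    unfold cls cls1
    rw [← sum_sub_distrib]
    apply sum_congr rfl
    intro N' _
    simp only [inter_succ_iff, h, iff_false]
    by_cases h1 : N' ∩ range i = N ∩ range i <;> by_cases h2 : i ∈ N' <;> simp [h1, h2]

theorem cls_zero (N : Finset ℕ) : cls n μ 0 N = E n μ (fun _ => 1) := by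
  unfold cls E
  apply sum_congr rfl
  intro N' _
  simp

theorem cls_top {N : Finset ℕ} (hN : N ⊆ range n) : cls n μ n N = μ N := by
  unfold cls
  rw [sum_eq_single_of_mem N (mem_powerset.2 hN)]
  · simp
  · intro N' hN' hne
    rw [if_neg]
    rw [inter_eq_left.2 hN, inter_eq_left.2 (mem_powerset.1 hN')]
    exact hne

/-- The chain rule. -/
theorem log_mu (h0 : ∀ N, 0 ≤ μ N) (h1 : E n μ (fun _ => 1) = 1) {N : Finset ℕ}
    (hN : N ⊆ range n) (hm : μ N ≠ 0) :
    log (μ N) = ∑ i ∈ range n,
      (xi i N * log (pr n μ i N) + (1 - xi i N) * log (1 - pr n μ i N)) := by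
  have hpos : ∀ i, 0 < cls n μ i N := fun i =>
    lt_of_lt_of_le (lt_of_le_of_ne (h0 N) (Ne.symm hm)) (le_cls h0 i (mem_powerset.2 hN))
  have key : ∀ k, log (cls n μ k N) = ∑ i ∈ range k,
      (xi i N * log (pr n μ i N) + (1 - xi i N) * log (1 - pr n μ i N)) := by
    intro k
    induction k with
    | zero => rw [cls_zero, h1]; simp
    | succ k ih =>
      rw [sum_range_succ, ← ih]
      have hk := hpos k
      have hk1 := hpos (k + 1)
      have h2 := cls_succ (n := n) (μ := μ) k N
      unfold xi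
      by_cases hkN : k ∈ N
      · rw [if_pos hkN] at h2
        rw [if_pos hkN]
        have h3 : cls n μ (k + 1) N = cls n μ k N * pr n μ k N := by
          unfold pr; rw [h2]; field_simp
        have h4 : 0 < pr n μ k N := by
          unfold pr; rw [← h2]; exact div_pos hk1 hk
        rw [h3, log_mul hk.ne' h4.ne']
        ring
      · rw [if_neg hkN] at h2
        rw [if_neg hkN]
        have h3 : cls n μ (k + 1) N = cls n μ k N * (1 - pr n μ k N) := by
          unfold pr; rw [h2]; field_simp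
        have h4 : 0 < 1 - pr n μ k N := by
          have : 1 - pr n μ k N = cls n μ (k + 1) N / cls n μ k N := by
            rw [h3]; field_simp
          rw [this]; exact div_pos hk1 hk
        rw [h3, log_mul hk.ne' h4.ne']
        ring
  rw [← key n, cls_top hN]

theorem meas_log_pr (i : ℕ) : Meas i (fun N => log (pr n μ i N)) := by
  intro N N' h
  change log (pr n μ i N) = log (pr n μ i N')
  rw [meas_pr n μ i N N' h]

theorem meas_log_pr' (i : ℕ) : Meas i (fun N => log (1 - pr n μ i N)) := by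
  intro N N' h
  change log (1 - pr n μ i N) = log (1 - pr n μ i N')
  rw [meas_pr n μ i N N' h]

theorem scalar1 {p : ℝ} (h1 : p ≤ 1) : -p ≤ (1 - p) * log (1 - p) := by
  rcases eq_or_lt_of_le h1 with h | h
  · rw [h]; norm_num
  · have h2 := one_sub_inv_le_log_of_pos (x := 1 - p) (by linarith)
    have h3 : (1 - p) * (1 - (1 - p)⁻¹) ≤ (1 - p) * log (1 - p) :=
      mul_le_mul_of_nonneg_left h2 (by linarith)
    have h4 : (1 - p) * (1 - (1 - p)⁻¹) = -p := by
      have : 1 - p ≠ 0 := by linarith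
      field_simp; ring
    linarith

theorem scalar2 {p q lam : ℝ} (hq : 0 < q) (h0 : 0 ≤ p) :
    p * log q - p * log p + p ≤ lam * p + q * exp (-lam) := by
  rcases eq_or_lt_of_le h0 with h | h
  · rw [← h]
    have := mul_pos hq (exp_pos (-lam))
    simp only [zero_mul, mul_zero, sub_zero, add_zero, zero_add]
    exact this.le
  · have h1 : log (q * exp (-lam) / p) ≤ q * exp (-lam) / p - 1 :=
      log_le_sub_one_of_pos (by positivity)
    rw [log_div (by positivity) h.ne', log_mul hq.ne' (exp_pos _).ne', log_exp] at h1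
    have h2 := mul_le_mul_of_nonneg_left h1 h.le
    have h3 : p * (q * exp (-lam) / p - 1) = q * exp (-lam) - p := by
      field_simp
    rw [h3] at h2
    nlinarith

theorem scalar3 {p q lam : ℝ} (hq : 0 < q) (h0 : 1 / 2 ≤ p) (hlam : 0 ≤ lam) :
    p * log q - p * log p + p ≤ lam * p + q * exp (-lam) - (-log q - 1 - log 2) * p := by
  have h1 : -log 2 ≤ log p := by
    rw [← log_inv]
    exact log_le_log (by norm_num) (by linarith)
  have h2 : 0 ≤ p * (log p + log 2) := mul_nonneg (by linarith) (by linarith)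
  have h3 : 0 ≤ lam * p := mul_nonneg hlam (by linarith)
  have h4 : 0 ≤ q * exp (-lam) := by positivity
  nlinarith

theorem entropy_bound {q lam : ℝ} (hq : 0 < q) (hlam : 0 ≤ lam) {Φ : ℝ} (hΦ : 0 < Φ)
    (h0 : ∀ N, 0 ≤ μ N) (h1 : E n μ (fun _ => 1) = 1)
    (hμ : ∀ N ⊆ range n, μ N ≠ 0 → μ N = q ^ N.card / Φ) :
    log Φ ≤ lam * E n μ (fun N => (N.card : ℝ)) + n * (q * exp (-lam)) -
      (-log q - 1 - log 2) * ∑ j ∈ range n, E n μ (fun N => pr n μ j N * sp n μ j N) := by
  have e1 : E n μ (fun N => (N.card : ℝ) * log q - log Φ) =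
      ∑ i ∈ range n, E n μ (fun N => pr n μ i N * log (pr n μ i N) +
        (1 - pr n μ i N) * log (1 - pr n μ i N)) := by
    have a1 : E n μ (fun N => (N.card : ℝ) * log q - log Φ) =
        E n μ (fun N => ∑ i ∈ range n,
        (xi i N * log (pr n μ i N) + (1 - xi i N) * log (1 - pr n μ i N))) := by
      apply E_congr
      intro N hN hm
      rw [← log_mu h0 h1 hN hm, hμ N hN hm, log_div (by positivity) hΦ.ne', log_pow]
    rw [a1, E_sum]
    apply sum_congr rfl
    intro i _
    have b1 := star' (n := n) h0 i (meas_log_pr (n := n) (μ := μ) i)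
    have b2 := star' (n := n) h0 i (meas_log_pr' (n := n) (μ := μ) i)
    have b3 : ∀ N, xi i N * log (pr n μ i N) + (1 - xi i N) * log (1 - pr n μ i N) =
        xi i N * log (pr n μ i N) + (log (1 - pr n μ i N) - xi i N * log (1 - pr n μ i N)) := by
      intro N; ring
    have b4 : ∀ N, pr n μ i N * log (pr n μ i N) + (1 - pr n μ i N) * log (1 - pr n μ i N) =
        pr n μ i N * log (pr n μ i N) +
          (log (1 - pr n μ i N) - pr n μ i N * log (1 - pr n μ i N)) := by
      intro N; ring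
    simp only [b3, b4]
    rw [E_add, E_sub, b1, b2, ← E_sub, ← E_add]
  have e2 : E n μ (fun N => (N.card : ℝ) * log q - log Φ) =
      log q * E n μ (fun N => (N.card : ℝ)) - log Φ := by
    rw [E_sub, ← E_const_mul]
    congr 1
    · congr 1; funext N; ring
    · have : E n μ (fun _ => log Φ) = log Φ * E n μ (fun _ => 1) := by
        rw [← E_const_mul]; congr 1; funext N; ring
      rw [this, h1, mul_one]
  rw [e2, ← E_pr_sum h0] at e1
  have e3 : log Φ = ∑ i ∈ range n, E n μ (fun N => pr n μ i N * log q -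
      (pr n μ i N * log (pr n μ i N) + (1 - pr n μ i N) * log (1 - pr n μ i N))) := by
    have : ∀ i, E n μ (fun N => pr n μ i N * log q -
      (pr n μ i N * log (pr n μ i N) + (1 - pr n μ i N) * log (1 - pr n μ i N))) =
      log q * E n μ (pr n μ i) - E n μ (fun N => pr n μ i N * log (pr n μ i N) +
        (1 - pr n μ i N) * log (1 - pr n μ i N)) := by
      intro i
      rw [E_sub, ← E_const_mul]
      congr 2
      funext N; ring
    simp only [this]
    rw [sum_sub_distrib, ← mul_sum]
    linarith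
  rw [e3, ← E_pr_sum h0]
  have e4 : (n : ℝ) * (q * exp (-lam)) = ∑ j ∈ range n, q * exp (-lam) * E n μ (fun _ => 1) := by
    rw [h1, sum_const, card_range, nsmul_eq_mul, mul_one]
  rw [e4, mul_sum, mul_sum, ← sum_add_distrib, ← sum_sub_distrib]
  apply sum_le_sum
  intro i _
  rw [← E_const_mul, ← E_const_mul, ← E_const_mul, ← E_add, ← E_sub]
  apply E_mono' h0
  intro N
  have p0 := pr_nonneg (n := n) h0 i N
  have p1 := pr_le_one (n := n) h0 i N
  have c1 := scalar1 p1
  by_cases hs : 1 / 2 ≤ pr n μ i N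
  · have c2 := scalar3 (lam := lam) hq hs hlam
    have : sp n μ i N = 1 := by unfold sp; rw [if_pos hs]
    rw [this]
    linarith
  · have c2 := scalar2 (lam := lam) hq p0
    have : sp n μ i N = 0 := by unfold sp; rw [if_neg hs]
    rw [this]
    linarith

/-- The weighted number of small hitting sets is small. -/
theorem weight_bound {ι : Type*} [DecidableEq ι] (L : Finset ι) (f : ι → Finset ℕ)
    {q lam b D s : ℝ} (hq : 0 < q) (hlam : 0 ≤ lam) (hb : 0 < b) (hD : 0 < D)
    (hκ : 0 ≤ -log q - 1 - log 2)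
    (hf : ∀ a ∈ L, f a ⊆ range n)
    (hpair : ∀ i j, i < j → ∀ a ∈ L, ∀ a' ∈ L, i ∈ f a → i ∈ f a' → j ∈ f a → j ∈ f a' → a = a')
    (hdeg : ∀ j, ((L.filter (fun a => j ∈ f a)).card : ℝ) ≤ D)
    (K : Finset (Finset ℕ)) (hK : K.Nonempty)
    (hKs : ∀ N ∈ K, N ⊆ range n ∧ (N.card : ℝ) ≤ s ∧ ∀ a ∈ L, (N ∩ f a).Nonempty) :
    log (∑ N ∈ K, q ^ N.card) ≤ lam * s + n * (q * exp (-lam)) -
      (-log q - 1 - log 2) * ((L.card : ℝ) / (2 * D) - s / b -
        n * (1 + 1 / b) * exp (2 * b + 1) * (b + 1 / 2) / (4 * D)) := by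
  classical
  set Φ := ∑ N ∈ K, q ^ N.card with hΦdef
  have hΦ : 0 < Φ := sum_pos (fun N _ => by positivity) hK
  set μ : Finset ℕ → ℝ := fun N => if N ∈ K then q ^ N.card / Φ else 0 with hμdef
  have h0 : ∀ N, 0 ≤ μ N := by
    intro N; simp only [hμdef]; split_ifs
    · positivity
    · exact le_refl _
  have hKsub : K ⊆ (range n).powerset := fun N hN => mem_powerset.2 (hKs N hN).1
  have hmem : ∀ N, μ N ≠ 0 → N ∈ K := by
    intro N h
    by_contra hc
    exact h (by simp only [hμdef]; rw [if_neg hc])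
  have h1 : E n μ (fun _ => 1) = 1 := by
    unfold E
    simp only [mul_one, hμdef]
    rw [← sum_filter, filter_mem_eq_inter, inter_eq_right.2 hKsub, ← sum_div]
    exact div_self hΦ.ne'
  have hμ : ∀ N ⊆ range n, μ N ≠ 0 → μ N = q ^ N.card / Φ := by
    intro N _ h
    simp only [hμdef]; rw [if_pos (hmem N h)]
  have hEs : E n μ (fun N => (N.card : ℝ)) ≤ s := by
    calc E n μ (fun N => (N.card : ℝ)) ≤ E n μ (fun N => s * 1) := by
          apply E_mono h0; intro N _ hm
          rw [mul_one]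
          exact (hKs N (hmem N hm)).2.1
      _ = s * E n μ (fun _ => 1) := E_const_mul _ _
      _ = s := by rw [h1, mul_one]
  have hA := entropy_bound (lam := lam) hq hlam hΦ h0 h1 hμ
  have hB := combine L f h0 h1 hb hD hf hpair hdeg
    (fun N _ hm a ha => (hKs N (hmem N hm)).2.2 a ha)
  set Sb := ∑ j ∈ range n, E n μ (fun N => pr n μ j N * sp n μ j N)
  set T := E n μ (fun N => (N.card : ℝ))
  have hB' : (L.card : ℝ) / (2 * D) - s / b -
        n * (1 + 1 / b) * exp (2 * b + 1) * (b + 1 / 2) / (4 * D) ≤ Sb := by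
    have h2 : (L.card : ℝ) / (2 * D) ≤ (2 * D * Sb + 2 * D / b * T +
        n * (1 + 1 / b) * exp (2 * b + 1) * (b + 1 / 2) / 2) / (2 * D) :=
      div_le_div_of_nonneg_right hB (by positivity)
    have h3 : (2 * D * Sb + 2 * D / b * T +
        n * (1 + 1 / b) * exp (2 * b + 1) * (b + 1 / 2) / 2) / (2 * D) =
        Sb + T / b + n * (1 + 1 / b) * exp (2 * b + 1) * (b + 1 / 2) / (4 * D) := by
      field_simp; ring
    have h4 : T / b ≤ s / b := div_le_div_of_nonneg_right hEs hb.le
    linarith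
  have h5 := mul_le_mul_of_nonneg_left hB' hκ
  have h6 := mul_le_mul_of_nonneg_left hEs hlam
  linarith

end Pool.Agent.W281.Net
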