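import Mathlib

set_option autoImplicit false
open Finset

namespace Pool.Agent.W281.Net

/-- Grid points. -/
def grid (g : ℕ) : Finset (ℕ × ℕ) := range (g ^ 2) ×ˢ range (g ^ 3)

/-- The indices of the lines through the grid point `a`. -/
def fam (g : ℕ) (a : ℕ × ℕ) : Finset ℕ :=
  (range (2 * g ^ 4)).filter (fun j => j % (2 * g ^ 3) + (j / (2 * g ^ 3)) * a.1 = a.2 + g ^ 3)

theorem mem_grid {g : ℕ} {a : ℕ × ℕ} : a ∈ grid g ↔ a.1 < g ^ 2 ∧ a.2 < g ^ 3 := by
  unfold grid; rw [mem_product, mem_range, mem_range]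

theorem mem_fam {g : ℕ} {a : ℕ × ℕ} {j : ℕ} : j ∈ fam g a ↔
    j < 2 * g ^ 4 ∧ j % (2 * g ^ 3) + (j / (2 * g ^ 3)) * a.1 = a.2 + g ^ 3 := by
  unfold fam; rw [mem_filter, mem_range]

theorem card_grid (g : ℕ) : (grid g).card = g ^ 5 := by
  unfold grid; rw [card_product, card_range, card_range]; ring

theorem fam_subset (g : ℕ) (a : ℕ × ℕ) : fam g a ⊆ range (2 * g ^ 4) := filter_subset _ _

theorem card_fam {g : ℕ} (hg : 0 < g) {a : ℕ × ℕ} (ha : a ∈ grid g) : (fam g a).card = g := by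
  rw [mem_grid] at ha
  have hT : 0 < 2 * g ^ 3 := by positivity
  have key : ∀ s < g, s * a.1 ≤ a.2 + g ^ 3 ∧ a.2 + g ^ 3 - s * a.1 < 2 * g ^ 3 := by
    intro s hs
    have h1 : s * a.1 ≤ g * g ^ 2 := Nat.mul_le_mul hs.le ha.1.le
    have h2 : g * g ^ 2 = g ^ 3 := by ring
    omega
  have himg : fam g a = (range g).image (fun s => (a.2 + g ^ 3 - s * a.1) + (2 * g ^ 3) * s) := by
    ext j
    rw [mem_fam, mem_image]
    constructor
    · rintro ⟨h1, h2⟩
      refine ⟨j / (2 * g ^ 3), ?_, ?_⟩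
      · rw [mem_range]
        apply Nat.div_lt_of_lt_mul
        calc j < 2 * g ^ 4 := h1
          _ = 2 * g ^ 3 * g := by ring
      · rw [← h2, Nat.add_sub_cancel, Nat.mod_add_div]
    · rintro ⟨s, hs, rfl⟩
      rw [mem_range] at hs
      obtain ⟨k1, k2⟩ := key s hs
      have e1 : ((a.2 + g ^ 3 - s * a.1) + (2 * g ^ 3) * s) / (2 * g ^ 3) = s := by
        rw [Nat.add_mul_div_left _ _ hT, Nat.div_eq_of_lt k2, zero_add]
      have e2 : ((a.2 + g ^ 3 - s * a.1) + (2 * g ^ 3) * s) % (2 * g ^ 3) =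
          a.2 + g ^ 3 - s * a.1 := by
        rw [Nat.add_mul_mod_self_left, Nat.mod_eq_of_lt k2]
      refine ⟨?_, ?_⟩
      · calc (a.2 + g ^ 3 - s * a.1) + (2 * g ^ 3) * s < 2 * g ^ 3 + (2 * g ^ 3) * s := by omega
          _ = 2 * g ^ 3 * (s + 1) := by ring
          _ ≤ 2 * g ^ 3 * g := Nat.mul_le_mul_left _ hs
          _ = 2 * g ^ 4 := by ring
      · rw [e1, e2]; omega
  rw [himg, card_image_of_injOn, card_range]
  intro s hs s' hs' h
  simp only [coe_range, Set.mem_Iio] at hs hs'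
  simp only at h
  obtain ⟨_, k2⟩ := key s hs
  obtain ⟨_, k2'⟩ := key s' hs'
  have e1 : ((a.2 + g ^ 3 - s * a.1) + (2 * g ^ 3) * s) / (2 * g ^ 3) = s := by
    rw [Nat.add_mul_div_left _ _ hT, Nat.div_eq_of_lt k2, zero_add]
  have e2 : ((a.2 + g ^ 3 - s' * a.1) + (2 * g ^ 3) * s') / (2 * g ^ 3) = s' := by
    rw [Nat.add_mul_div_left _ _ hT, Nat.div_eq_of_lt k2', zero_add]
  rw [← e1, h, e2]

theorem deg_fam (g : ℕ) (j : ℕ) : ((grid g).filter (fun a => j ∈ fam g a)).card ≤ g ^ 2 := by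
  have h : ((grid g).filter (fun a => j ∈ fam g a)).card ≤ (range (g ^ 2)).card := by
    apply card_le_card_of_injOn (fun a => a.1)
    · intro a ha
      rw [mem_coe, mem_filter, mem_grid] at ha
      simp only [coe_range, Set.mem_Iio]
      exact ha.1.1
    · intro a ha a' ha' h
      rw [mem_coe, mem_filter, mem_fam] at ha ha'
      simp only at h
      have h1 := ha.2.2
      have h2 := ha'.2.2
      rw [h] at h1
      ext
      · exact h
      · omega
  rwa [card_range] at h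

theorem pair_fam {g : ℕ} : ∀ i j, i < j → ∀ a ∈ grid g, ∀ a' ∈ grid g, i ∈ fam g a → i ∈ fam g a' →
    j ∈ fam g a → j ∈ fam g a' → a = a' := by
  intro i j hij a _ a' _ h1 h2 h3 h4
  rw [mem_fam] at h1 h2 h3 h4
  have k1 := h1.2
  have k2 := h2.2
  have k3 := h3.2
  have k4 := h4.2
  have hi := Nat.mod_add_div i (2 * g ^ 3)
  have hj := Nat.mod_add_div j (2 * g ^ 3)
  generalize i % (2 * g ^ 3) = t at k1 k2 hi
  generalize i / (2 * g ^ 3) = s at k1 k2 hi
  generalize j % (2 * g ^ 3) = t' at k3 k4 hj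
  generalize j / (2 * g ^ 3) = s' at k3 k4 hj
  have hx : a.1 = a'.1 := by
    by_contra hne
    zify at k1 k2 k3 k4 hi hj hne
    have e1 : (s : ℤ) * (a.1 - a'.1) = a.2 - a'.2 := by linarith
    have e2 : (s' : ℤ) * (a.1 - a'.1) = a.2 - a'.2 := by linarith
    have e3 : ((s : ℤ) - s') * (a.1 - a'.1) = 0 := by linarith
    have e4 : (a.1 : ℤ) - a'.1 ≠ 0 := sub_ne_zero.2 hne
    have e5 : (s : ℤ) - s' = 0 := by
      rcases mul_eq_zero.1 e3 with h | h
      · exact h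
      · exact absurd h e4
    have e6 : (s : ℤ) = s' := by linarith
    have e7 : (t : ℤ) = t' := by rw [e6] at k1; linarith
    have : (i : ℤ) = j := by rw [← hi, ← hj, e6, e7]
    omega
  ext
  · exact hx
  · rw [hx] at k1; omega

end Pool.Agent.W281.Net
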