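import Pool.Agent.W281.Net.Params
import Pool.Agent.W281.Net.Model

set_option autoImplicit false
open Finset Real
open scoped Classical

namespace Pool.Agent.W281.Net

/-- The point `(x, y)` of the plane. -/
noncomputable def pt (x y : ℝ) : EuclideanSpace ℝ (Fin 2) := !₂[x, y]

theorem pt_inj {x y x' y' : ℝ} (h : pt x y = pt x' y') : x = x' ∧ y = y' := by
  have h0 := congrArg (fun p : EuclideanSpace ℝ (Fin 2) => p 0) h
  have h1 := congrArg (fun p : EuclideanSpace ℝ (Fin 2) => p 1) h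
  simp only [pt] at h0 h1
  exact ⟨by simpa using h0, by simpa using h1⟩

theorem mem_line {x y u v : ℝ} :
    pt x y ∈ affineSpan ℝ ({pt 0 u, pt 1 v} : Set (EuclideanSpace ℝ (Fin 2))) ↔
      y = u + (v - u) * x := by
  rw [mem_affineSpan_pair_iff_exists_lineMap_eq]
  have hl : ∀ r : ℝ, AffineMap.lineMap (pt 0 u) (pt 1 v) r = pt r (u + (v - u) * r) := by
    intro r
    rw [AffineMap.lineMap_apply]
    ext i
    fin_cases i
    · simp [pt]
    · simp [pt]; ring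
  constructor
  · rintro ⟨r, hr⟩
    rw [hl] at hr
    obtain ⟨h1, h2⟩ := pt_inj hr
    rw [← h1, h2]
  · intro h
    exact ⟨x, by rw [hl, ← h]⟩

/-- The `j`-th line. -/
noncomputable def ln (g j : ℕ) : AffineSubspace ℝ (EuclideanSpace ℝ (Fin 2)) :=
  affineSpan ℝ ({pt 0 (((j % (2 * g ^ 3) : ℕ) : ℝ) - (g : ℝ) ^ 3),
    pt 1 (((j % (2 * g ^ 3) : ℕ) : ℝ) - (g : ℝ) ^ 3 + ((j / (2 * g ^ 3) : ℕ) : ℝ))} :
    Set (EuclideanSpace ℝ (Fin 2)))

theorem mem_ln {g j : ℕ} {x y : ℝ} : pt x y ∈ ln g j ↔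
    y = ((j % (2 * g ^ 3) : ℕ) : ℝ) - (g : ℝ) ^ 3 + ((j / (2 * g ^ 3) : ℕ) : ℝ) * x := by
  unfold ln
  rw [mem_line]
  constructor <;> intro h <;> rw [h] <;> ring

theorem ln_inj (g : ℕ) : Function.Injective (ln g) := by
  intro j j' h
  have h0 : pt 0 (((j % (2 * g ^ 3) : ℕ) : ℝ) - (g : ℝ) ^ 3) ∈ ln g j := by
    rw [mem_ln]; ring
  have h1 : pt 1 (((j % (2 * g ^ 3) : ℕ) : ℝ) - (g : ℝ) ^ 3 + ((j / (2 * g ^ 3) : ℕ) : ℝ)) ∈
      ln g j := by
    rw [mem_ln]; ring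
  rw [h, mem_ln] at h0 h1
  have e0 : ((j % (2 * g ^ 3) : ℕ) : ℝ) = ((j' % (2 * g ^ 3) : ℕ) : ℝ) := by linarith
  have e1 : ((j / (2 * g ^ 3) : ℕ) : ℝ) = ((j' / (2 * g ^ 3) : ℕ) : ℝ) := by linarith
  have f0 : j % (2 * g ^ 3) = j' % (2 * g ^ 3) := by exact_mod_cast e0
  have f1 : j / (2 * g ^ 3) = j' / (2 * g ^ 3) := by exact_mod_cast e1
  rw [← Nat.mod_add_div j (2 * g ^ 3), ← Nat.mod_add_div j' (2 * g ^ 3), f0, f1]

/-- The point set. -/
noncomputable def pts (g : ℕ) : Finset (EuclideanSpace ℝ (Fin 2)) :=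
  (range (g ^ 2) ×ˢ range (3 * g ^ 3 + g)).image
    (fun a : ℕ × ℕ => pt (a.1 : ℝ) ((a.2 : ℝ) - (g : ℝ) ^ 3))

theorem mem_pts_of {g : ℕ} {x y : ℕ} (hx : x < g ^ 2) (hy : y < 3 * g ^ 3 + g) :
    pt (x : ℝ) ((y : ℝ) - (g : ℝ) ^ 3) ∈ pts g := by
  unfold pts
  exact mem_image.2 ⟨(x, y), mem_product.2 ⟨mem_range.2 hx, mem_range.2 hy⟩, rfl⟩

theorem grid_mem_pts {g : ℕ} {a : ℕ × ℕ} (ha : a ∈ grid g) :
    pt (a.1 : ℝ) (a.2 : ℝ) ∈ pts g := by
  rw [mem_grid] at ha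
  have h := mem_pts_of (g := g) (x := a.1) (y := a.2 + g ^ 3) ha.1 (by omega)
  have e : (((a.2 + g ^ 3 : ℕ) : ℝ) - (g : ℝ) ^ 3) = (a.2 : ℝ) := by push_cast; ring
  rwa [e] at h

theorem mem_ln_iff {g j : ℕ} {a : ℕ × ℕ} (hj : j < 2 * g ^ 4) :
    pt (a.1 : ℝ) (a.2 : ℝ) ∈ ln g j ↔ j ∈ fam g a := by
  rw [mem_ln, mem_fam]
  constructor
  · intro h
    refine ⟨hj, ?_⟩
    have : (((j % (2 * g ^ 3) + (j / (2 * g ^ 3)) * a.1 : ℕ)) : ℝ) = ((a.2 + g ^ 3 : ℕ) : ℝ) := by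
      rw [Nat.cast_add, Nat.cast_mul, Nat.cast_add, Nat.cast_pow]; linarith
    exact_mod_cast this
  · rintro ⟨_, h⟩
    have : (((j % (2 * g ^ 3) + (j / (2 * g ^ 3)) * a.1 : ℕ)) : ℝ) = ((a.2 + g ^ 3 : ℕ) : ℝ) := by
      rw [h]
    rw [Nat.cast_add, Nat.cast_mul, Nat.cast_add, Nat.cast_pow] at this
    linarith

theorem ln_spanned {g j : ℕ} (hg : 2 ≤ g) (hj : j < 2 * g ^ 4) :
    ln g j ∈ (pts g).offDiag.image
      (fun x : EuclideanSpace ℝ (Fin 2) × EuclideanSpace ℝ (Fin 2) =>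
        affineSpan ℝ ({x.1, x.2} : Set (EuclideanSpace ℝ (Fin 2)))) := by
  have hT : 0 < 2 * g ^ 3 := by positivity
  have hg2 : 1 < g ^ 2 := by nlinarith
  have ht : j % (2 * g ^ 3) < 2 * g ^ 3 := Nat.mod_lt _ hT
  have hs : j / (2 * g ^ 3) < g := by
    apply Nat.div_lt_of_lt_mul
    calc j < 2 * g ^ 4 := hj
      _ = 2 * g ^ 3 * g := by ring
  rw [mem_image]
  refine ⟨(pt 0 (((j % (2 * g ^ 3) : ℕ) : ℝ) - (g : ℝ) ^ 3),
    pt 1 (((j % (2 * g ^ 3) : ℕ) : ℝ) - (g : ℝ) ^ 3 + ((j / (2 * g ^ 3) : ℕ) : ℝ))), ?_, rfl⟩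
  rw [mem_offDiag]
  refine ⟨?_, ?_, ?_⟩
  · have := mem_pts_of (g := g) (x := 0) (y := j % (2 * g ^ 3)) (by omega) (by omega)
    simpa using this
  · have := mem_pts_of (g := g) (x := 1) (y := j % (2 * g ^ 3) + j / (2 * g ^ 3)) hg2 (by omega)
    have e : (((j % (2 * g ^ 3) + j / (2 * g ^ 3) : ℕ) : ℝ) - (g : ℝ) ^ 3) =
        ((j % (2 * g ^ 3) : ℕ) : ℝ) - (g : ℝ) ^ 3 + ((j / (2 * g ^ 3) : ℕ) : ℝ) := by
      rw [Nat.cast_add]; ring
    rw [e] at this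
    simpa using this
  · intro h
    have := (pt_inj h).1
    norm_num at this

theorem two_le_card_pts {g : ℕ} (hg : 2 ≤ g) : 2 ≤ (pts g).card := by
  have hg2 : 1 < g ^ 2 := by nlinarith
  have h0 := mem_pts_of (g := g) (x := 0) (y := 0) (by omega) (by omega)
  have h1 := mem_pts_of (g := g) (x := 1) (y := 0) hg2 (by omega)
  have : 1 < (pts g).card := by
    rw [one_lt_card]
    refine ⟨_, h0, _, h1, ?_⟩
    intro h
    have := (pt_inj h).1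
    norm_num at this
  omega

/-- The lower bound at the scale `g`. -/
theorem at_scale {g : ℕ} (hg : 100 ≤ log (g : ℝ)) {ε : ℝ} (hε : 0 < ε)
    (hεg : 32 * (g : ℝ) ^ 3 ≤ 1 / ε) :
    ∃ X : Finset (AffineSubspace ℝ (EuclideanSpace ℝ (Fin 2))), X.Nonempty ∧
      X ⊆ (pts g).offDiag.image
        (fun x : EuclideanSpace ℝ (Fin 2) × EuclideanSpace ℝ (Fin 2) =>
          affineSpan ℝ ({x.1, x.2} : Set (EuclideanSpace ℝ (Fin 2)))) ∧
      ∀ N ⊆ X, (∀ p ∈ pts g, ε * (X.card : ℝ) ≤ (({l ∈ X | p ∈ l} : Finset _).card : ℝ) →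
          ∃ l ∈ N, p ∈ l) →
        exp (-9) * (16 * (g : ℝ) ^ 3 * log (2 * (g : ℝ) ^ 4)) < (N.card : ℝ) := by
  have hg2 : 2 ≤ g := by
    by_contra hcon
    have h1 : (g : ℝ) ≤ 1 := by
      have : g ≤ 1 := by omega
      exact_mod_cast this
    have h2 : log (g : ℝ) ≤ 0 := log_nonpos (Nat.cast_nonneg g) h1
    linarith
  have hg0 : 0 < g := by omega
  have hG : (0 : ℝ) < g := by exact_mod_cast hg0
  obtain ⟨X, hX, hXc, hXa, hXN⟩ := exists_X hg (grid g) (fam g) (fun a _ => fam_subset g a)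
    (fun a ha => card_fam hg0 ha) (card_grid g) pair_fam (deg_fam g)
  have hlog : 0 < log (2 * (g : ℝ) ^ 4) := by
    apply log_pos
    have h1 : (1 : ℝ) ≤ (g : ℝ) ^ 4 := one_le_pow₀ (by exact_mod_cast hg0)
    linarith
  refine ⟨X.image (ln g), ?_, ?_, ?_⟩
  · -- nonempty
    rw [image_nonempty]
    have ha : ((0, 0) : ℕ × ℕ) ∈ grid g := by
      rw [mem_grid]; exact ⟨by positivity, by positivity⟩
    have h1 := hXa _ ha
    by_contra hcon
    rw [not_nonempty_iff_eq_empty] at hcon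
    rw [hcon] at h1
    simp at h1
    linarith
  · intro l hl
    rw [mem_image] at hl
    obtain ⟨j, hj, rfl⟩ := hl
    exact ln_spanned hg2 (mem_range.1 (hX hj))
  · intro N hN hnet
    have hcardX : (X.image (ln g)).card = X.card := card_image_of_injective _ (ln_inj g)
    set N0 : Finset ℕ := X.filter (fun j => ln g j ∈ N) with hN0
    have hN0c : N0.card ≤ N.card := by
      apply card_le_card_of_injOn (ln g)
      · intro j hj
        rw [mem_coe, hN0, mem_filter] at hj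
        exact hj.2
      · exact (ln_inj g).injOn
    have hhit : ∀ a ∈ grid g, (N0 ∩ fam g a).Nonempty := by
      intro a ha
      obtain ⟨l, hlN, hpl⟩ := hnet _ (grid_mem_pts ha) (by
        rw [hcardX]
        have h1 : ((X ∩ fam g a).card : ℝ) ≤
            (((X.image (ln g)).filter (fun l => pt (a.1 : ℝ) (a.2 : ℝ) ∈ l)).card : ℝ) := by
          have : (X ∩ fam g a).card ≤
            ((X.image (ln g)).filter (fun l => pt (a.1 : ℝ) (a.2 : ℝ) ∈ l)).card := by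
            apply card_le_card_of_injOn (ln g)
            · intro j hj
              rw [mem_coe, mem_inter] at hj
              rw [mem_coe, mem_filter]
              exact ⟨mem_image_of_mem _ hj.1, (mem_ln_iff (mem_range.1 (hX hj.1))).2 hj.2⟩
            · exact (ln_inj g).injOn
          exact_mod_cast this
        have h2 := hXa a ha
        have h3 : ε * (X.card : ℝ) ≤ 2 * log (2 * (g : ℝ) ^ 4) := by
          have hε2 : ε ≤ 1 / (32 * (g : ℝ) ^ 3) := by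
            rw [le_div_iff₀ (by positivity)]
            rw [le_div_iff₀ hε] at hεg
            linarith
          calc ε * (X.card : ℝ) ≤ ε * (64 * (g : ℝ) ^ 3 * log (2 * (g : ℝ) ^ 4)) :=
                mul_le_mul_of_nonneg_left hXc hε.le
            _ ≤ 1 / (32 * (g : ℝ) ^ 3) * (64 * (g : ℝ) ^ 3 * log (2 * (g : ℝ) ^ 4)) := by
                apply mul_le_mul_of_nonneg_right hε2
                positivity
            _ = 2 * log (2 * (g : ℝ) ^ 4) := by field_simp; ring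
        exact h3.trans (h2.trans h1))
      have hlX := hN hlN
      rw [mem_image] at hlX
      obtain ⟨j, hj, rfl⟩ := hlX
      refine ⟨j, mem_inter.2 ⟨?_, ?_⟩⟩
      · rw [hN0, mem_filter]; exact ⟨hj, hlN⟩
      · exact (mem_ln_iff (mem_range.1 (hX hj))).1 hpl
    have := hXN N0 (filter_subset _ _) hhit
    have h2 : (N0.card : ℝ) ≤ N.card := by exact_mod_cast hN0c
    linarith

theorem main : ∃ c : ℝ, 0 < c ∧ ∃ ε₀ : ℝ, 0 < ε₀ ∧ ∀ ε : ℝ, 0 < ε → ε < ε₀ →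
    ∃ P : Finset (EuclideanSpace ℝ (Fin 2)), 2 ≤ P.card ∧
      ∃ X : Finset (AffineSubspace ℝ (EuclideanSpace ℝ (Fin 2))), X.Nonempty ∧
        X ⊆ P.offDiag.image
          (fun x : EuclideanSpace ℝ (Fin 2) × EuclideanSpace ℝ (Fin 2) =>
            affineSpan ℝ ({x.1, x.2} : Set (EuclideanSpace ℝ (Fin 2)))) ∧
        ∀ N ⊆ X, (∀ p ∈ P, ε * (X.card : ℝ) ≤ (({l ∈ X | p ∈ l} : Finset _).card : ℝ) →
            ∃ l ∈ N, p ∈ l) →
          c * ((1 / ε) * log (1 / ε)) ≤ (N.card : ℝ) := by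
  obtain ⟨g₀, hg₀⟩ := exists_nat_ge (exp 100)
  refine ⟨exp (-9) / 32, by positivity, 1 / (32 * ((g₀ : ℝ) + 1) ^ 3), by positivity, ?_⟩
  intro ε hε hε0
  have hinv : 32 * ((g₀ : ℝ) + 1) ^ 3 < 1 / ε := by
    rw [lt_div_iff₀ hε]
    rw [lt_div_iff₀ (by positivity)] at hε0
    linarith
  have hex : ∃ m : ℕ, 1 / ε < 32 * ((m : ℝ) + 1) ^ 3 := by
    obtain ⟨m, hm⟩ := exists_nat_gt (1 / ε)
    refine ⟨m, ?_⟩
    have hm0 : (0 : ℝ) ≤ m := Nat.cast_nonneg m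
    have : (m : ℝ) ≤ 32 * ((m : ℝ) + 1) ^ 3 := by nlinarith [mul_nonneg hm0 hm0, mul_nonneg hm0 (mul_nonneg hm0 hm0)]
    linarith
  set g := Nat.find hex with hgdef
  have h1 : 1 / ε < 32 * ((g : ℝ) + 1) ^ 3 := Nat.find_spec hex
  have h2 : g₀ < g := by
    by_contra hcon
    have h3 : (g : ℝ) ≤ g₀ := by exact_mod_cast not_lt.1 hcon
    have h4 : 32 * ((g : ℝ) + 1) ^ 3 ≤ 32 * ((g₀ : ℝ) + 1) ^ 3 := by gcongr
    linarith
  have hg1 : 1 ≤ g := by omega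
  have h3 : 32 * (g : ℝ) ^ 3 ≤ 1 / ε := by
    have := Nat.find_min hex (m := g - 1) (by omega)
    rw [not_lt] at this
    have e : (((g - 1 : ℕ) : ℝ) + 1) = g := by
      have : g - 1 + 1 = g := by omega
      exact_mod_cast this
    rwa [e] at this
  have hexp : exp 100 ≤ (g : ℝ) := by
    have : (g₀ : ℝ) ≤ g := by exact_mod_cast h2.le
    linarith
  have hlog : 100 ≤ log (g : ℝ) := by
    rw [le_log_iff_exp_le (by linarith [exp_pos 100])]; exact hexp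
  have hG2 : (2 : ℝ) ≤ g := by
    have h5 : (1 : ℝ) + 100 ≤ exp 100 := by linarith [add_one_le_exp (100 : ℝ)]
    linarith
  have hg2 : 2 ≤ g := by exact_mod_cast hG2
  obtain ⟨X, hXne, hXs, hXN⟩ := at_scale hlog hε h3
  refine ⟨pts g, two_le_card_pts hg2, X, hXne, hXs, ?_⟩
  intro N hN hnet
  have h4 := hXN N hN hnet
  have h5 : 1 / ε ≤ 256 * (g : ℝ) ^ 3 := by
    have : ((g : ℝ) + 1) ^ 3 ≤ (2 * (g : ℝ)) ^ 3 := by gcongr; linarith
    have e : (2 * (g : ℝ)) ^ 3 = 8 * (g : ℝ) ^ 3 := by ring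
    linarith
  have h6 : log (1 / ε) ≤ 2 * log (2 * (g : ℝ) ^ 4) := by
    have e : 2 * log (2 * (g : ℝ) ^ 4) = log ((2 * (g : ℝ) ^ 4) ^ 2) := by
      rw [log_pow]; push_cast; ring
    rw [e]
    apply log_le_log (by positivity)
    refine h5.trans ?_
    have h7 : (64 : ℝ) ≤ (g : ℝ) ^ 5 := by
      have h8 : (g : ℝ) ≥ 101 := by linarith [add_one_le_exp (100 : ℝ)]
      calc (64 : ℝ) ≤ 101 ^ 5 := by norm_num
        _ ≤ (g : ℝ) ^ 5 := by gcongr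
    have h9 : (2 * (g : ℝ) ^ 4) ^ 2 = 4 * (g : ℝ) ^ 3 * (g : ℝ) ^ 5 := by ring
    rw [h9]
    have : 4 * (g : ℝ) ^ 3 * 64 ≤ 4 * (g : ℝ) ^ 3 * (g : ℝ) ^ 5 := by gcongr
    linarith
  have h10 : 0 ≤ log (1 / ε) := by
    apply log_nonneg
    have : (1 : ℝ) ≤ 32 * (g : ℝ) ^ 3 := by
      have : (1 : ℝ) ≤ (g : ℝ) ^ 3 := one_le_pow₀ (by linarith)
      linarith
    linarith
  have h11 : (1 / ε) * log (1 / ε) ≤ 256 * (g : ℝ) ^ 3 * (2 * log (2 * (g : ℝ) ^ 4)) :=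
    mul_le_mul h5 h6 h10 (by positivity)
  calc exp (-9) / 32 * ((1 / ε) * log (1 / ε))
      ≤ exp (-9) / 32 * (256 * (g : ℝ) ^ 3 * (2 * log (2 * (g : ℝ) ^ 4))) :=
        mul_le_mul_of_nonneg_left h11 (by positivity)
    _ = exp (-9) * (16 * (g : ℝ) ^ 3 * log (2 * (g : ℝ) ^ 4)) := by ring
    _ ≤ (N.card : ℝ) := h4.le

end Pool.Agent.W281.Net
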