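import Mathlib

set_option autoImplicit false
open Finset Real

namespace Pool.Agent.W281.Net

variable (n : ℕ) (μ : Finset ℕ → ℝ)

/-- Expectation of `G` under the weights `μ` on the subsets of `range n`. -/
noncomputable def E (G : Finset ℕ → ℝ) : ℝ := ∑ N ∈ (range n).powerset, μ N * G N

/-- Mass of the class of the sets that agree with `N` below `i`. -/
noncomputable def cls (i : ℕ) (N : Finset ℕ) : ℝ :=
  ∑ N' ∈ (range n).powerset, if N' ∩ range i = N ∩ range i then μ N' else 0

/-- Mass of the members of the class that contain `i`. -/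
noncomputable def cls1 (i : ℕ) (N : Finset ℕ) : ℝ :=
  ∑ N' ∈ (range n).powerset, if N' ∩ range i = N ∩ range i then (if i ∈ N' then μ N' else 0) else 0

/-- Conditional probability of `i` given the part of the set below `i`. -/
noncomputable def pr (i : ℕ) (N : Finset ℕ) : ℝ := cls1 n μ i N / cls n μ i N

/-- `G` depends only on the part of the set below `i`. -/
def Meas (i : ℕ) (G : Finset ℕ → ℝ) : Prop :=
  ∀ N N' : Finset ℕ, N ∩ range i = N' ∩ range i → G N = G N'

theorem Meas.mono {i k : ℕ} (h : i ≤ k) {G : Finset ℕ → ℝ} (hG : Meas i G) : Meas k G := by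
  intro N N' hN
  apply hG
  have h1 : N ∩ range i = (N ∩ range k) ∩ range i := by
    ext x; simp only [mem_inter, mem_range]; constructor
    · rintro ⟨a, b⟩; exact ⟨⟨a, by omega⟩, b⟩
    · rintro ⟨⟨a, _⟩, b⟩; exact ⟨a, b⟩
  have h2 : N' ∩ range i = (N' ∩ range k) ∩ range i := by
    ext x; simp only [mem_inter, mem_range]; constructor
    · rintro ⟨a, b⟩; exact ⟨⟨a, by omega⟩, b⟩
    · rintro ⟨⟨a, _⟩, b⟩; exact ⟨a, b⟩
  rw [h1, h2, hN]

theorem meas_cls (i : ℕ) : Meas i (cls n μ i) := by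
  intro N N' h; unfold cls; rw [h]

theorem meas_cls1 (i : ℕ) : Meas i (cls1 n μ i) := by
  intro N N' h; unfold cls1; rw [h]

theorem meas_pr (i : ℕ) : Meas i (pr n μ i) := by
  intro N N' h; unfold pr; rw [meas_cls n μ i N N' h, meas_cls1 n μ i N N' h]

variable {n μ}

theorem cls_nonneg (h0 : ∀ N, 0 ≤ μ N) (i : ℕ) (N : Finset ℕ) : 0 ≤ cls n μ i N := by
  apply sum_nonneg; intro N' _; split_ifs
  · exact h0 _
  · exact le_refl _

theorem cls1_nonneg (h0 : ∀ N, 0 ≤ μ N) (i : ℕ) (N : Finset ℕ) : 0 ≤ cls1 n μ i N := by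
  apply sum_nonneg; intro N' _; split_ifs
  · exact h0 _
  · exact le_refl _
  · exact le_refl _

theorem cls1_le (h0 : ∀ N, 0 ≤ μ N) (i : ℕ) (N : Finset ℕ) : cls1 n μ i N ≤ cls n μ i N := by
  apply sum_le_sum; intro N' _; split_ifs
  · exact le_refl _
  · exact h0 _
  · exact le_refl _

theorem le_cls (h0 : ∀ N, 0 ≤ μ N) (i : ℕ) {N : Finset ℕ} (hN : N ∈ (range n).powerset) :
    μ N ≤ cls n μ i N := by
  unfold cls
  refine le_trans ?_ (single_le_sum (f := fun N' => if N' ∩ range i = N ∩ range i then μ N' else 0)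
    ?_ hN)
  · simp
  · intro N' _; split_ifs
    · exact h0 _
    · exact le_refl _

theorem pr_nonneg (h0 : ∀ N, 0 ≤ μ N) (i : ℕ) (N : Finset ℕ) : 0 ≤ pr n μ i N :=
  div_nonneg (cls1_nonneg h0 i N) (cls_nonneg h0 i N)

theorem pr_le_one (h0 : ∀ N, 0 ≤ μ N) (i : ℕ) (N : Finset ℕ) : pr n μ i N ≤ 1 :=
  div_le_one_of_le₀ (cls1_le h0 i N) (cls_nonneg h0 i N)

/-- The defining identity of conditional probabilities. -/
theorem star (h0 : ∀ N, 0 ≤ μ N) (i : ℕ) {G : Finset ℕ → ℝ} (hG : Meas i G) :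
    E n μ (fun N => if i ∈ N then G N else 0) = E n μ (fun N => pr n μ i N * G N) := by
  classical
  unfold E
  have h1 : ∀ N ∈ (range n).powerset, μ N * (pr n μ i N * G N) =
      ∑ N' ∈ (range n).powerset,
        if N' ∩ range i = N ∩ range i then
          (if i ∈ N' then μ N' * (G N' / cls n μ i N') * μ N else 0) else 0 := by
    intro N _
    unfold pr
    rw [cls1, sum_div, sum_mul, mul_sum]
    apply sum_congr rfl
    intro N' _
    by_cases h : N' ∩ range i = N ∩ range i
    · rw [if_pos h, if_pos h]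
      by_cases h' : i ∈ N'
      · rw [if_pos h', if_pos h', hG N' N h, meas_cls n μ i N' N h]
        ring
      · rw [if_neg h', if_neg h']; ring
    · rw [if_neg h, if_neg h]; ring
  rw [sum_congr rfl h1, sum_comm]
  apply sum_congr rfl
  intro N' hN'
  by_cases h' : i ∈ N'
  · simp only [if_pos h']
    have h2 : ∀ N ∈ (range n).powerset, (if N' ∩ range i = N ∩ range i then
          (μ N' * (G N' / cls n μ i N') * μ N) else 0) =
        μ N' * (G N' / cls n μ i N') * (if N ∩ range i = N' ∩ range i then μ N else 0) := by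
      intro N _
      by_cases h : N' ∩ range i = N ∩ range i
      · rw [if_pos h, if_pos h.symm]
      · rw [if_neg h, if_neg (fun e => h e.symm), mul_zero]
    rw [sum_congr rfl h2, ← mul_sum]
    change μ N' * G N' = μ N' * (G N' / cls n μ i N') * cls n μ i N'
    rcases eq_or_lt_of_le (cls_nonneg (n := n) h0 i N') with h | h
    · have : μ N' = 0 := le_antisymm (h ▸ le_cls h0 i hN') (h0 _)
      rw [this]; ring
    · field_simp
  · simp [if_neg h']

theorem E_add (F G : Finset ℕ → ℝ) : E n μ (fun N => F N + G N) = E n μ F + E n μ G := by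
  unfold E; rw [← sum_add_distrib]; apply sum_congr rfl; intro N _; ring

theorem E_sub (F G : Finset ℕ → ℝ) : E n μ (fun N => F N - G N) = E n μ F - E n μ G := by
  unfold E; rw [← sum_sub_distrib]; apply sum_congr rfl; intro N _; ring

theorem E_const_mul (c : ℝ) (G : Finset ℕ → ℝ) : E n μ (fun N => c * G N) = c * E n μ G := by
  unfold E; rw [mul_sum]; apply sum_congr rfl; intro N _; ring

theorem E_sum {ι : Type*} (s : Finset ι) (G : ι → Finset ℕ → ℝ) :
    E n μ (fun N => ∑ a ∈ s, G a N) = ∑ a ∈ s, E n μ (G a) := by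
  unfold E; rw [sum_comm]; apply sum_congr rfl; intro N _; rw [mul_sum]

theorem E_congr {F G : Finset ℕ → ℝ} (h : ∀ N ⊆ range n, μ N ≠ 0 → F N = G N) :
    E n μ F = E n μ G := by
  unfold E; apply sum_congr rfl; intro N hN
  by_cases hm : μ N = 0
  · rw [hm]; ring
  · rw [h N (mem_powerset.1 hN) hm]

theorem E_mono (h0 : ∀ N, 0 ≤ μ N) {F G : Finset ℕ → ℝ}
    (h : ∀ N ⊆ range n, μ N ≠ 0 → F N ≤ G N) : E n μ F ≤ E n μ G := by
  unfold E; apply sum_le_sum; intro N hN
  by_cases hm : μ N = 0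
  · rw [hm]; simp
  · exact mul_le_mul_of_nonneg_left (h N (mem_powerset.1 hN) hm) (h0 N)

end Pool.Agent.W281.Net
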