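import Mathlib

set_option autoImplicit false
open Finset Real

namespace Pool.Agent.W281.Net

/-- Weight of `X` as a random subset of `range n` with density `q`. -/
noncomputable def w (n : ℕ) (q : ℝ) (X : Finset ℕ) : ℝ := q ^ X.card * (1 - q) ^ (range n \ X).card

theorem w_nonneg {n : ℕ} {q : ℝ} (h0 : 0 ≤ q) (h1 : q ≤ 1) (X : Finset ℕ) : 0 ≤ w n q X :=
  mul_nonneg (pow_nonneg h0 _) (pow_nonneg (by linarith) _)

theorem prod_ite_card (s t : Finset ℕ) (x y : ℝ) :
    ∏ i ∈ s, (if i ∈ t then x else y) = x ^ (s ∩ t).card * y ^ (s \ t).card := by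
  rw [prod_ite, prod_const, prod_const, filter_mem_eq_inter, filter_notMem_eq_sdiff]

theorem sum_w (n : ℕ) (q : ℝ) : ∑ X ∈ (range n).powerset, w n q X = 1 := by
  have h := prod_add (fun _ : ℕ => q) (fun _ => 1 - q) (range n)
  simp only [prod_const] at h
  have h2 : ∏ i ∈ range n, (q + (1 - q)) = 1 := by
    apply prod_eq_one; intro i _; ring
  rw [prod_const] at h2
  unfold w
  rw [← h, h2]

theorem sum_w_superset {n : ℕ} (q : ℝ) {N : Finset ℕ} (hN : N ⊆ range n) :
    ∑ X ∈ (range n).powerset, w n q X * (if N ⊆ X then 1 else 0) = q ^ N.card := by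
  have h := prod_add (fun _ : ℕ => q) (fun i => if i ∈ N then 0 else 1 - q) (range n)
  have h1 : ∏ i ∈ range n, (q + (if i ∈ N then 0 else 1 - q)) = q ^ N.card := by
    have : ∀ i ∈ range n, (q + (if i ∈ N then 0 else 1 - q)) = if i ∈ N then q else 1 := by
      intro i _; split_ifs <;> ring
    rw [prod_congr rfl this, prod_ite_card, one_pow, mul_one, inter_eq_right.2 hN]
  rw [← h1, h]
  apply sum_congr rfl
  intro X hX
  rw [prod_const, prod_ite_card]
  unfold w
  by_cases hNX : N ⊆ X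
  · rw [if_pos hNX]
    have h2 : (range n \ X) ∩ N = ∅ := by
      ext x; simp only [mem_inter, mem_sdiff, notMem_empty, iff_false]
      rintro ⟨⟨_, a⟩, b⟩; exact a (hNX b)
    have h3 : (range n \ X) \ N = range n \ X := by
      ext x; simp only [mem_sdiff]
      constructor
      · rintro ⟨a, _⟩; exact a
      · rintro ⟨a, b⟩; exact ⟨⟨a, b⟩, fun c => b (hNX c)⟩
    rw [h2, h3]; simp
  · rw [if_neg hNX]
    have h2 : ((range n \ X) ∩ N).card ≠ 0 := by
      intro hc
      apply hNX
      intro x hx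
      by_contra hxX
      have : x ∈ (range n \ X) ∩ N := mem_inter.2 ⟨mem_sdiff.2 ⟨hN hx, hxX⟩, hx⟩
      rw [card_eq_zero] at hc
      rw [hc] at this
      exact absurd this (notMem_empty x)
    rw [zero_pow h2]; ring

theorem sum_w_half {n : ℕ} (q : ℝ) {l : Finset ℕ} (hl : l ⊆ range n) :
    ∑ X ∈ (range n).powerset, w n q X * (1 / 2) ^ (X ∩ l).card = (1 - q / 2) ^ l.card := by
  have h := prod_add (fun i : ℕ => if i ∈ l then q / 2 else q) (fun _ => 1 - q) (range n)
  have h1 : ∏ i ∈ range n, ((if i ∈ l then q / 2 else q) + (1 - q)) = (1 - q / 2) ^ l.card := by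
    have : ∀ i ∈ range n, ((if i ∈ l then q / 2 else q) + (1 - q)) =
        if i ∈ l then 1 - q / 2 else 1 := by
      intro i _; split_ifs <;> ring
    rw [prod_congr rfl this, prod_ite_card, one_pow, mul_one, inter_eq_right.2 hl]
  rw [← h1, h]
  apply sum_congr rfl
  intro X _
  rw [prod_const, prod_ite_card]
  unfold w
  have h2 : q ^ X.card = q ^ (X ∩ l).card * q ^ (X \ l).card := by
    rw [← pow_add, card_inter_add_card_sdiff]
  rw [h2]
  simp only [div_pow, one_pow]
  ring

theorem sum_w_card (n : ℕ) (q : ℝ) :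
    ∑ X ∈ (range n).powerset, w n q X * (X.card : ℝ) = n * q := by
  have h : ∀ X ∈ (range n).powerset, w n q X * (X.card : ℝ) =
      ∑ i ∈ range n, w n q X * (if {i} ⊆ X then 1 else 0) := by
    intro X hX
    rw [← mul_sum]
    congr 1
    simp only [singleton_subset_iff]
    rw [← sum_filter, filter_mem_eq_inter, inter_eq_right.2 (mem_powerset.1 hX)]
    simp
  rw [sum_congr rfl h, sum_comm]
  have h2 : ∀ i ∈ range n, ∑ X ∈ (range n).powerset, w n q X * (if {i} ⊆ X then 1 else 0) = q := by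
    intro i hi
    rw [sum_w_superset q (singleton_subset_iff.2 hi), card_singleton, pow_one]
  rw [sum_congr rfl h2]
  simp

theorem exists_sample {n : ℕ} (hn : 0 < n) {q : ℝ} (h0 : 0 < q) (h1 : q ≤ 1) {ι : Type*}
    (L : Finset ι) (f : ι → Finset ℕ) (g : ℕ) (u : ℝ)
    (hf : ∀ a ∈ L, f a ⊆ range n) (hg : ∀ a ∈ L, (f a).card = g)
    (hL : (L.card : ℝ) * (exp (log 2 * u) * (1 - q / 2) ^ g) ≤ 1 / 4)
    (K : Finset (Finset ℕ)) (hK : ∀ N ∈ K, N ⊆ range n)
    (hΦ : ∑ N ∈ K, q ^ N.card ≤ 1 / 4) :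
    ∃ X ⊆ range n, (X.card : ℝ) ≤ 4 * (n * q) ∧ (∀ a ∈ L, u ≤ ((X ∩ f a).card : ℝ)) ∧
      ∀ N ∈ K, ¬ N ⊆ X := by
  by_contra hcon
  push Not at hcon
  have hnq : 0 < 4 * (n * q) := by positivity
  set F : Finset ℕ → ℝ := fun X => (X.card : ℝ) / (4 * (n * q)) +
    ∑ a ∈ L, exp (log 2 * u) * (1 / 2) ^ (X ∩ f a).card +
    ∑ N ∈ K, (if N ⊆ X then 1 else 0) with hF
  have hbad : ∀ X ∈ (range n).powerset, 1 ≤ F X := by
    intro X hX
    have t1 : 0 ≤ (X.card : ℝ) / (4 * (n * q)) := by positivity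
    have t2 : ∀ a ∈ L, 0 ≤ exp (log 2 * u) * (1 / 2) ^ (X ∩ f a).card := fun a _ => by positivity
    have t3 : ∀ N ∈ K, (0 : ℝ) ≤ (if N ⊆ X then 1 else 0) := fun N _ => by
      split_ifs <;> norm_num
    have s2 := sum_nonneg t2
    have s3 := sum_nonneg t3
    by_cases c1 : (X.card : ℝ) ≤ 4 * (n * q)
    · by_cases c2 : ∀ a ∈ L, u ≤ ((X ∩ f a).card : ℝ)
      · obtain ⟨N, hN, hNX⟩ := hcon X (mem_powerset.1 hX) c1 c2
        have := single_le_sum t3 hN
        rw [if_pos hNX] at this
        simp only [hF]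
        linarith
      · push Not at c2
        obtain ⟨a, ha, hlt⟩ := c2
        have := single_le_sum t2 ha
        have h3 : 1 ≤ exp (log 2 * u) * (1 / 2) ^ (X ∩ f a).card := by
          have : ((1 : ℝ) / 2) ^ (X ∩ f a).card = exp (-(log 2 * ((X ∩ f a).card : ℝ))) := by
            rw [exp_neg, mul_comm, exp_nat_mul, exp_log (by norm_num), one_div, inv_pow]
          rw [this, ← exp_add]
          apply one_le_exp
          have hlog : 0 < log 2 := log_pos (by norm_num)
          nlinarith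
        simp only [hF]
        linarith
    · have : 1 ≤ (X.card : ℝ) / (4 * (n * q)) := by
        rw [le_div_iff₀ hnq]; linarith [not_le.1 c1]
      simp only [hF]
      linarith
  have hsum : ∑ X ∈ (range n).powerset, w n q X ≤ ∑ X ∈ (range n).powerset, w n q X * F X := by
    apply sum_le_sum
    intro X hX
    have := mul_le_mul_of_nonneg_left (hbad X hX) (w_nonneg (n := n) h0.le h1 X)
    linarith
  rw [sum_w] at hsum
  have hval : ∑ X ∈ (range n).powerset, w n q X * F X =
      (n * q) / (4 * (n * q)) + ∑ a ∈ L, exp (log 2 * u) * (1 - q / 2) ^ (f a).card +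
      ∑ N ∈ K, q ^ N.card := by
    have e : ∀ X ∈ (range n).powerset, w n q X * F X =
        w n q X * (X.card : ℝ) / (4 * (n * q)) +
        ∑ a ∈ L, exp (log 2 * u) * (w n q X * (1 / 2) ^ (X ∩ f a).card) +
        ∑ N ∈ K, w n q X * (if N ⊆ X then 1 else 0) := by
      intro X _
      simp only [hF]
      rw [mul_add, mul_add, mul_sum, mul_sum]
      congr 1
      congr 1
      · ring
      · apply sum_congr rfl; intro a _; ring
    rw [sum_congr rfl e, sum_add_distrib, sum_add_distrib, ← sum_div, sum_w_card]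
    congr 1
    · congr 1
      rw [sum_comm]
      apply sum_congr rfl
      intro a ha
      rw [← mul_sum, sum_w_half q (hf a ha)]
    · rw [sum_comm]
      apply sum_congr rfl
      intro N hN
      exact sum_w_superset q (hK N hN)
  have h4 : ∑ a ∈ L, exp (log 2 * u) * (1 - q / 2) ^ (f a).card =
      (L.card : ℝ) * (exp (log 2 * u) * (1 - q / 2) ^ g) := by
    rw [sum_congr rfl (fun a ha => by rw [hg a ha]), sum_const, nsmul_eq_mul]
  have h5 : ((n : ℝ) * q) / (4 * (n * q)) = 1 / 4 := by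
    have : (n : ℝ) * q ≠ 0 := by positivity
    field_simp
  rw [hval, h4, h5] at hsum
  linarith

end Pool.Agent.W281.Net
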