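import Pool.Agent.W281.Net.Entropy
import Pool.Agent.W281.Net.Sample

set_option autoImplicit false
open Finset Real

namespace Pool.Agent.W281.Net

theorem exp_neg_nine : exp (-9 : ℝ) ≤ 1 / 8000 := by
  rw [exp_neg, one_div]
  apply inv_anti₀ (by norm_num)
  have h1 : (2.7182818283 : ℝ) ≤ exp 1 := exp_one_gt_d9.le
  calc (8000 : ℝ) ≤ (2.7182818283 : ℝ) ^ 9 := by norm_num
    _ ≤ exp 1 ^ 9 := by gcongr
    _ = exp 9 := by rw [← exp_nat_mul]; norm_num

theorem exists_X {g : ℕ} (hg : 100 ≤ log (g : ℝ)) {ι : Type*} [DecidableEq ι] (L : Finset ι)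
    (f : ι → Finset ℕ) (hf : ∀ a ∈ L, f a ⊆ range (2 * g ^ 4))
    (hcard : ∀ a ∈ L, (f a).card = g) (hL : L.card = g ^ 5)
    (hpair : ∀ i j, i < j → ∀ a ∈ L, ∀ a' ∈ L, i ∈ f a → i ∈ f a' → j ∈ f a → j ∈ f a' → a = a')
    (hdeg : ∀ j, (L.filter (fun a => j ∈ f a)).card ≤ g ^ 2) :
    ∃ X ⊆ range (2 * g ^ 4), (X.card : ℝ) ≤ 64 * (g : ℝ) ^ 3 * log (2 * (g : ℝ) ^ 4) ∧
      (∀ a ∈ L, 2 * log (2 * (g : ℝ) ^ 4) ≤ ((X ∩ f a).card : ℝ)) ∧
      ∀ N ⊆ X, (∀ a ∈ L, (N ∩ f a).Nonempty) →
        exp (-9) * (16 * (g : ℝ) ^ 3 * log (2 * (g : ℝ) ^ 4)) < (N.card : ℝ) := by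
  classical
  have hg0 : 0 < g := by
    rcases Nat.eq_zero_or_pos g with h | h
    · rw [h] at hg; norm_num at hg
    · exact h
  have hG : (1 : ℝ) ≤ g := by exact_mod_cast hg0
  have hGpos : (0 : ℝ) < g := by linarith
  set G : ℝ := (g : ℝ) with hGdef
  set y : ℝ := log G with hy
  set l : ℝ := log (2 * G ^ 4) with hl
  have hl2a : log 2 < 0.6931471808 := log_two_lt_d9
  have hl2b : 0.6931471803 < log 2 := log_two_gt_d9
  have hly : l = log 2 + 4 * y := by
    rw [hl, log_mul (by norm_num) (by positivity), log_pow]; push_cast; ring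
  have hlpos : 400 ≤ l := by rw [hly]; linarith
  set n : ℕ := 2 * g ^ 4 with hn
  have hnG : (n : ℝ) = 2 * G ^ 4 := by rw [hn]; push_cast; rfl
  set q : ℝ := 8 * l / G with hq
  have hq0 : 0 < q := by positivity
  set s : ℝ := exp (-9) * (16 * G ^ 3 * l) with hs
  set c : ℝ := exp (-9) with hc
  have hc0 : 0 < c := exp_pos _
  have hc1 : c ≤ 1 / 8000 := exp_neg_nine
  have hsq : s = c * q * n := by
    rw [hs, hq, hnG]; field_simp; ring
  set b : ℝ := l / 16 with hb
  have hb0 : 0 < b := by positivity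
  have hb1 : 25 ≤ b := by rw [hb]; linarith
  -- kappa
  have hlog8 : log (8 * l) ≤ l / 80 + log 640 - 1 := by
    have h1 : log (8 * l / 640) ≤ 8 * l / 640 - 1 := log_le_sub_one_of_pos (by positivity)
    rw [log_div (by positivity) (by norm_num)] at h1
    linarith
  have hlog640 : log 640 ≤ 10 * log 2 := by
    have : 10 * log 2 = log (2 ^ 10) := by rw [log_pow]; norm_num
    rw [this]
    exact log_le_log (by norm_num) (by norm_num)
  have hlogq : log q = log (8 * l) - y := by
    rw [hq, log_div (by positivity) (by positivity)]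
  have hκ : l / 5 ≤ -log q - 1 - log 2 := by
    rw [hlogq]; rw [hly] at hlog8 ⊢; linarith
  have hκ0 : 0 ≤ -log q - 1 - log 2 := by linarith
  have hq1 : q ≤ 1 := by
    have : log q ≤ 0 := by linarith
    by_contra hcon
    have := log_pos (not_le.1 hcon)
    linarith
  -- third term
  have hexp : exp (3 * b) ≤ G / 45 := by
    have h45 : log 45 ≤ 6 * log 2 := by
      have : 6 * log 2 = log (2 ^ 6) := by rw [log_pow]; norm_num
      rw [this]
      exact log_le_log (by norm_num) (by norm_num)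
    rw [← log_le_log_iff (exp_pos _) (by positivity), log_exp, log_div (by positivity) (by norm_num)]
    rw [hb, hly]
    linarith
  have hthird : (n : ℝ) * (1 + 1 / b) * exp (2 * b + 1) * (b + 1 / 2) / (4 * G ^ 2) ≤
      G ^ 3 / 10 := by
    have e1 : exp (2 * b + 1) ≤ exp (2 * b) * 3 := by
      rw [exp_add]
      apply mul_le_mul_of_nonneg_left _ (exp_pos _).le
      linarith [exp_one_lt_d9]
    have e2 : (1 + 1 / b) * (b + 1 / 2) ≤ 3 * b := by
      have : (1 + 1 / b) * (b + 1 / 2) = b + 3 / 2 + 1 / (2 * b) := by field_simp; ring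
      rw [this]
      have : 1 / (2 * b) ≤ 1 := by rw [div_le_iff₀ (by positivity)]; linarith
      linarith
    have e3 : b ≤ exp b := by linarith [add_one_le_exp b]
    have e4 : (1 + 1 / b) * exp (2 * b + 1) * (b + 1 / 2) ≤ 9 * exp (3 * b) := by
      calc (1 + 1 / b) * exp (2 * b + 1) * (b + 1 / 2)
          = ((1 + 1 / b) * (b + 1 / 2)) * exp (2 * b + 1) := by ring
        _ ≤ (3 * b) * (exp (2 * b) * 3) := by
            apply mul_le_mul e2 e1 (exp_pos _).le (by positivity)
        _ ≤ (3 * exp b) * (exp (2 * b) * 3) := by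
            apply mul_le_mul_of_nonneg_right _ (by positivity)
            linarith
        _ = 9 * exp (3 * b) := by
            have : exp (3 * b) = exp b * exp (2 * b) := by rw [← exp_add]; ring_nf
            rw [this]; ring
    calc (n : ℝ) * (1 + 1 / b) * exp (2 * b + 1) * (b + 1 / 2) / (4 * G ^ 2)
        = (G ^ 2 / 2) * ((1 + 1 / b) * exp (2 * b + 1) * (b + 1 / 2)) := by
          rw [hnG]; field_simp; ring
      _ ≤ (G ^ 2 / 2) * (9 * exp (3 * b)) := mul_le_mul_of_nonneg_left e4 (by positivity)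
      _ ≤ (G ^ 2 / 2) * (9 * (G / 45)) := by gcongr
      _ = G ^ 3 / 10 := by ring
  -- the family of small hitting sets
  set K : Finset (Finset ℕ) := (range n).powerset.filter
    (fun N => (N.card : ℝ) ≤ s ∧ ∀ a ∈ L, (N ∩ f a).Nonempty) with hK
  have hKs : ∀ N ∈ K, N ⊆ range n ∧ (N.card : ℝ) ≤ s ∧ ∀ a ∈ L, (N ∩ f a).Nonempty := by
    intro N hN
    rw [hK, mem_filter, mem_powerset] at hN
    exact ⟨hN.1, hN.2.1, hN.2.2⟩
  have hΦ : ∑ N ∈ K, q ^ N.card ≤ 1 / 4 := by
    rcases K.eq_empty_or_nonempty with h | h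
    · rw [h]; norm_num
    · have hpos : 0 < ∑ N ∈ K, q ^ N.card := sum_pos (fun N _ => by positivity) h
      have hw := weight_bound (n := n) (D := G ^ 2) (lam := 9) (b := b) (s := s) L f hq0
        (by norm_num) hb0 (by positivity) hκ0 hf hpair
        (fun j => by
          have := hdeg j
          calc ((L.filter (fun a => j ∈ f a)).card : ℝ) ≤ ((g ^ 2 : ℕ) : ℝ) := by exact_mod_cast this
            _ = G ^ 2 := by push_cast; rfl) K h hKs
      have t1 : (L.card : ℝ) / (2 * G ^ 2) = G ^ 3 / 2 := by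
        rw [hL]; push_cast; rw [← hGdef]; field_simp
      have t2 : s / b = 256 * c * G ^ 3 := by
        rw [hs, hb]; field_simp; ring
      have t3 : (9 : ℝ) * s + n * (q * exp (-9)) = 160 * c * G ^ 3 * l := by
        rw [← hc, hs, hq, hnG]; field_simp; ring
      rw [t1, t2, t3] at hw
      have hG3 : 0 < G ^ 3 := by positivity
      have t4 : G ^ 3 / 2 - 256 * c * G ^ 3 -
          (n : ℝ) * (1 + 1 / b) * exp (2 * b + 1) * (b + 1 / 2) / (4 * G ^ 2) ≥ 9 / 25 * G ^ 3 := by
        have : 256 * c * G ^ 3 ≤ 256 * (1 / 8000) * G ^ 3 := by gcongr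
        linarith
      have t5 : (l / 5) * (9 / 25 * G ^ 3) ≤ (-log q - 1 - log 2) * (G ^ 3 / 2 - 256 * c * G ^ 3 -
          (n : ℝ) * (1 + 1 / b) * exp (2 * b + 1) * (b + 1 / 2) / (4 * G ^ 2)) :=
        mul_le_mul hκ t4 (by positivity) hκ0
      have t6 : 160 * c * G ^ 3 * l ≤ 160 * (1 / 8000) * G ^ 3 * l := by gcongr
      have t7 : 400 ≤ G ^ 3 * l := by
        have : 1 ≤ G ^ 3 := one_le_pow₀ hG
        nlinarith
      have t8 : log (∑ N ∈ K, q ^ N.card) ≤ -(2 * log 2) := by linarith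
      have t9 : -(2 * log 2) = log (1 / 4) := by
        rw [one_div, log_inv, show (4 : ℝ) = 2 ^ 2 by norm_num, log_pow]; push_cast; ring
      rw [t9] at t8
      exact (log_le_log_iff hpos (by norm_num)).1 t8
  -- the sampling condition
  have hcond : (L.card : ℝ) * (exp (log 2 * (2 * l)) * (1 - q / 2) ^ g) ≤ 1 / 4 := by
    have h1 : (1 - q / 2) ^ g ≤ exp (-(4 * l)) := by
      have h2 : 1 - q / 2 ≤ exp (-(q / 2)) := by linarith [add_one_le_exp (-(q / 2))]
      calc (1 - q / 2) ^ g ≤ exp (-(q / 2)) ^ g := pow_le_pow_left₀ (by linarith) h2 g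
        _ = exp (-(4 * l)) := by
            rw [← exp_nat_mul]
            congr 1
            rw [← hGdef, hq]
            field_simp
            ring
    have h3 : (L.card : ℝ) = exp (5 * y) := by
      rw [hL]; push_cast
      rw [mul_comm, hy, show log G * 5 = log (G ^ 5) by rw [log_pow]; push_cast; ring,
        exp_log (by positivity)]
    have h4 : (1 : ℝ) / 4 = exp (-(2 * log 2)) := by
      rw [exp_neg, mul_comm, exp_mul, exp_log (by norm_num)]; norm_num
    rw [h3, h4]
    calc exp (5 * y) * (exp (log 2 * (2 * l)) * (1 - q / 2) ^ g)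
        ≤ exp (5 * y) * (exp (log 2 * (2 * l)) * exp (-(4 * l))) := by gcongr
      _ = exp (5 * y + (log 2 * (2 * l) + -(4 * l))) := by rw [← exp_add, ← exp_add]
      _ ≤ exp (-(2 * log 2)) := by
          apply exp_le_exp.2
          have : log 2 * (2 * l) ≤ 0.7 * (2 * l) := by
            apply mul_le_mul_of_nonneg_right _ (by linarith)
            linarith
          rw [hly] at this ⊢
          linarith
  have hn0 : 0 < n := by positivity
  obtain ⟨X, hX, hXc, hXa, hXN⟩ := exists_sample hn0 hq0 hq1 L f g (2 * l) hf hcard hcond K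
    (fun N hN => (hKs N hN).1) hΦ
  refine ⟨X, hX, ?_, hXa, ?_⟩
  · calc (X.card : ℝ) ≤ 4 * (n * q) := hXc
      _ = 64 * G ^ 3 * l := by rw [hnG, hq]; field_simp; ring
  · intro N hN hhit
    by_contra hcon
    apply hXN N _ hN
    rw [hK, mem_filter, mem_powerset]
    exact ⟨hN.trans hX, not_lt.1 hcon, hhit⟩

end Pool.Agent.W281.Net
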