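import Pool.Agent.W281.Net.Mart

set_option autoImplicit false
open Finset Real

namespace Pool.Agent.W281.Net

variable (n : ℕ) (μ : Finset ℕ → ℝ) (b : ℝ) (l : Finset ℕ)

open Classical in
/-- Accumulated hazard of the line `l` before step `i`. -/
noncomputable def H : ℕ → Finset ℕ → ℝ
  | 0, _ => 0
  | i + 1, N => if i ∈ l ∧ pr n μ i N < 1 / 2 ∧ H i N < b then H i N + pr n μ i N else H i N

open Classical in
/-- Indicator of an active step. -/
noncomputable def Act (i : ℕ) (N : Finset ℕ) : ℝ :=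
  if i ∈ l ∧ pr n μ i N < 1 / 2 ∧ H n μ b l i N < b then 1 else 0

/-- Indicator of `i ∈ N`. -/
noncomputable def xi (i : ℕ) (N : Finset ℕ) : ℝ := if i ∈ N then 1 else 0

/-- The tilting martingale. -/
noncomputable def Z : ℕ → Finset ℕ → ℝ
  | 0, _ => 1
  | i + 1, N => Z i N - Act n μ b l i N * Z i N * ((xi i N - pr n μ i N) / (1 - pr n μ i N))

theorem inter_step {i : ℕ} {N N' : Finset ℕ} (h : N ∩ range (i + 1) = N' ∩ range (i + 1)) :
    N ∩ range i = N' ∩ range i := by
  ext x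
  have h1 := Finset.ext_iff.1 h x
  simp only [mem_inter, mem_range] at h1 ⊢
  constructor
  · rintro ⟨a, c⟩; exact ⟨(h1.1 ⟨a, by omega⟩).1, c⟩
  · rintro ⟨a, c⟩; exact ⟨(h1.2 ⟨a, by omega⟩).1, c⟩

theorem meas_H (i : ℕ) : Meas i (H n μ b l i) := by
  induction i with
  | zero => intro N N' _; rfl
  | succ i ih =>
    intro N N' h
    have h1 := inter_step h
    simp only [H]
    rw [ih N N' h1, meas_pr n μ i N N' h1]

theorem meas_Act (i : ℕ) : Meas i (Act n μ b l i) := by
  intro N N' h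
  unfold Act
  rw [meas_H n μ b l i N N' h, meas_pr n μ i N N' h]

theorem meas_xi (i : ℕ) : Meas (i + 1) (xi i) := by
  intro N N' h
  have h1 : i ∈ N ↔ i ∈ N' := by
    have h2 := Finset.ext_iff.1 h i
    simpa using h2
  unfold xi
  simp only [h1]

theorem meas_Z (i : ℕ) : Meas i (Z n μ b l i) := by
  induction i with
  | zero => intro N N' _; rfl
  | succ i ih =>
    intro N N' h
    have h1 := inter_step h
    simp only [Z]
    rw [ih N N' h1, meas_pr n μ i N N' h1, meas_Act n μ b l i N N' h1, meas_xi i N N' h]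

theorem meas_H_succ (i : ℕ) : Meas i (H n μ b l (i + 1)) := by
  intro N N' h
  simp only [H]
  rw [meas_H n μ b l i N N' h, meas_pr n μ i N N' h]

variable {n μ b l}

theorem Meas.mul {i : ℕ} {F G : Finset ℕ → ℝ} (hF : Meas i F) (hG : Meas i G) :
    Meas i (fun N => F N * G N) := fun N N' h => by
  change F N * G N = F N' * G N'
  rw [hF N N' h, hG N N' h]

theorem Meas.div {i : ℕ} {F G : Finset ℕ → ℝ} (hF : Meas i F) (hG : Meas i G) :
    Meas i (fun N => F N / G N) := fun N N' h => by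
  change F N / G N = F N' / G N'
  rw [hF N N' h, hG N N' h]

theorem Meas.sub {i : ℕ} {F G : Finset ℕ → ℝ} (hF : Meas i F) (hG : Meas i G) :
    Meas i (fun N => F N - G N) := fun N N' h => by
  change F N - G N = F N' - G N'
  rw [hF N N' h, hG N N' h]

theorem Meas.add {i : ℕ} {F G : Finset ℕ → ℝ} (hF : Meas i F) (hG : Meas i G) :
    Meas i (fun N => F N + G N) := fun N N' h => by
  change F N + G N = F N' + G N'
  rw [hF N N' h, hG N N' h]

theorem Meas.const {i : ℕ} (c : ℝ) : Meas i (fun _ => c) := fun _ _ _ => rfl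

theorem Meas.sum {i : ℕ} {ι : Type*} (s : Finset ι) {G : ι → Finset ℕ → ℝ}
    (h : ∀ a ∈ s, Meas i (G a)) : Meas i (fun N => ∑ a ∈ s, G a N) := fun N N' e => by
  apply sum_congr rfl; intro a ha; exact h a ha N N' e

theorem star' (h0 : ∀ N, 0 ≤ μ N) (i : ℕ) {G : Finset ℕ → ℝ} (hG : Meas i G) :
    E n μ (fun N => xi i N * G N) = E n μ (fun N => pr n μ i N * G N) := by
  rw [← star h0 i hG]
  congr 1
  funext N
  unfold xi
  split_ifs <;> ring

theorem Act_nonneg (i : ℕ) (N : Finset ℕ) : 0 ≤ Act n μ b l i N := by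
  unfold Act; split_ifs <;> norm_num

theorem Act_le_one (i : ℕ) (N : Finset ℕ) : Act n μ b l i N ≤ 1 := by
  unfold Act; split_ifs <;> norm_num

theorem H_succ (i : ℕ) (N : Finset ℕ) :
    H n μ b l (i + 1) N = H n μ b l i N + pr n μ i N * Act n μ b l i N := by
  unfold Act
  simp only [H]
  split_ifs <;> ring

theorem H_nonneg (h0 : ∀ N, 0 ≤ μ N) (i : ℕ) (N : Finset ℕ) : 0 ≤ H n μ b l i N := by
  induction i with
  | zero => simp [H]
  | succ i ih =>
    rw [H_succ]
    exact add_nonneg ih (mul_nonneg (pr_nonneg h0 i N) (Act_nonneg i N))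

theorem H_mono (h0 : ∀ N, 0 ≤ μ N) {i k : ℕ} (h : i ≤ k) (N : Finset ℕ) :
    H n μ b l i N ≤ H n μ b l k N := by
  induction k, h using Nat.le_induction with
  | base => exact le_refl _
  | succ k _ ih =>
    rw [H_succ]
    have := mul_nonneg (pr_nonneg (n := n) h0 k N) (Act_nonneg (b := b) (l := l) (n := n) (μ := μ) k N)
    linarith

theorem H_le (hb : 0 ≤ b) (i : ℕ) (N : Finset ℕ) : H n μ b l i N ≤ b + 1 / 2 := by
  induction i with
  | zero => simp only [H]; linarith
  | succ i ih =>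
    simp only [H]
    split_ifs with h
    · linarith [h.2.1, h.2.2]
    · exact ih

theorem Z_succ_of_act {i : ℕ} {N : Finset ℕ}
    (h : i ∈ l ∧ pr n μ i N < 1 / 2 ∧ H n μ b l i N < b) :
    Z n μ b l (i + 1) N = if i ∈ N then 0 else Z n μ b l i N / (1 - pr n μ i N) := by
  simp only [Z, Act, xi]
  rw [if_pos h]
  have h1 : 1 - pr n μ i N ≠ 0 := by linarith [h.2.1]
  split_ifs
  · field_simp; ring
  · field_simp; ring

theorem Z_succ_of_not {i : ℕ} {N : Finset ℕ}
    (h : ¬(i ∈ l ∧ pr n μ i N < 1 / 2 ∧ H n μ b l i N < b)) :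
    Z n μ b l (i + 1) N = Z n μ b l i N := by
  simp only [Z, Act]
  rw [if_neg h]
  ring

theorem Z_nonneg (i : ℕ) (N : Finset ℕ) : 0 ≤ Z n μ b l i N := by
  induction i with
  | zero => simp [Z]
  | succ i ih =>
    by_cases h : i ∈ l ∧ pr n μ i N < 1 / 2 ∧ H n μ b l i N < b
    · rw [Z_succ_of_act h]
      split_ifs
      · exact le_refl _
      · exact div_nonneg ih (by linarith [h.2.1])
    · rw [Z_succ_of_not h]; exact ih

theorem inv_le_exp {p : ℝ} (h0 : 0 ≤ p) (h1 : p < 1 / 2) : 1 / (1 - p) ≤ exp (2 * p) := by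
  rw [div_le_iff₀ (by linarith)]
  have h2 : 2 * p + 1 ≤ exp (2 * p) := add_one_le_exp _
  nlinarith

theorem Z_le (h0 : ∀ N, 0 ≤ μ N) (i : ℕ) (N : Finset ℕ) :
    Z n μ b l i N ≤ exp (2 * H n μ b l i N) := by
  induction i with
  | zero => simp [Z, H]
  | succ i ih =>
    by_cases h : i ∈ l ∧ pr n μ i N < 1 / 2 ∧ H n μ b l i N < b
    · rw [Z_succ_of_act h]
      split_ifs
      · exact (exp_pos _).le
      · have h1 : H n μ b l (i + 1) N = H n μ b l i N + pr n μ i N := by
          simp only [H]; rw [if_pos h]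
        rw [h1, mul_add, exp_add, div_eq_mul_one_div]
        exact mul_le_mul ih (inv_le_exp (pr_nonneg h0 i N) h.2.1)
          (div_nonneg zero_le_one (by linarith [h.2.1])) (exp_pos _).le
    · rw [Z_succ_of_not h]
      refine ih.trans (exp_le_exp.2 ?_)
      have := H_mono (b := b) (l := l) (n := n) h0 (Nat.le_succ i) N
      simp only [Nat.succ_eq_add_one] at this
      linarith

theorem Z_le' (h0 : ∀ N, 0 ≤ μ N) (hb : 0 ≤ b) (i : ℕ) (N : Finset ℕ) :
    Z n μ b l i N ≤ exp (2 * b + 1) := by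
  refine (Z_le h0 i N).trans (exp_le_exp.2 ?_)
  have := H_le (n := n) (μ := μ) (l := l) hb i N
  linarith

theorem E_Z_succ (h0 : ∀ N, 0 ≤ μ N) (i : ℕ) {G : Finset ℕ → ℝ} (hG : Meas i G) :
    E n μ (fun N => Z n μ b l (i + 1) N * G N) = E n μ (fun N => Z n μ b l i N * G N) := by
  have hM : Meas i (fun N => Act n μ b l i N * Z n μ b l i N * G N / (1 - pr n μ i N)) :=
    (((meas_Act n μ b l i).mul (meas_Z n μ b l i)).mul hG).div ((Meas.const 1).sub (meas_pr n μ i))
  have h1 := star' (n := n) h0 i hM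
  have h2 : ∀ N, Z n μ b l (i + 1) N * G N = Z n μ b l i N * G N -
      (xi i N * (Act n μ b l i N * Z n μ b l i N * G N / (1 - pr n μ i N)) -
       pr n μ i N * (Act n μ b l i N * Z n μ b l i N * G N / (1 - pr n μ i N))) := by
    intro N
    simp only [Z]
    ring
  simp only [h2]
  rw [E_sub, E_sub, h1]
  ring

theorem E_Z_le (h0 : ∀ N, 0 ≤ μ N) {i k : ℕ} (h : i ≤ k) {G : Finset ℕ → ℝ} (hG : Meas i G) :
    E n μ (fun N => Z n μ b l k N * G N) = E n μ (fun N => Z n μ b l i N * G N) := by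
  induction k, h using Nat.le_induction with
  | base => rfl
  | succ k hk ih => rw [E_Z_succ h0 k (hG.mono hk), ih]

theorem E_Z_one (h0 : ∀ N, 0 ≤ μ N) (h1 : E n μ (fun _ => 1) = 1) (k : ℕ) :
    E n μ (Z n μ b l k) = 1 := by
  have h2 := E_Z_le (n := n) (b := b) (l := l) h0 (Nat.zero_le k) (G := fun _ => 1) (Meas.const 1)
  simp only [mul_one] at h2
  have h3 : E n μ (Z n μ b l 0) = 1 := by
    rw [← h1]; congr 1
  calc E n μ (Z n μ b l k) = E n μ (fun N => Z n μ b l k N) := rfl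
    _ = 1 := by rw [h2]; exact h3

end Pool.Agent.W281.Net
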